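import Mathlib

/-!
# Definitions for MP_5a7d1f_lc: measures on Boolean algebras and the Nikodym property
-/

namespace Pool.Agent.P.MP_5a7d1f_lc

open scoped ENNReal

variable {A : Type*} [BooleanAlgebra A]

/-- A measure on a Boolean algebra: a finitely additive, bounded, real-valued function. -/
structure IsMeasure (μ : A → ℝ) : Prop where
  additive : ∀ x y : A, Disjoint x y → μ (x ⊔ y) = μ x + μ y
  bounded : ∃ C : ℝ, ∀ x : A, |μ x| ≤ C

/-- The total variation: the supremum of `∑ |μ x|` over finite pairwise disjoint families. -/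
noncomputable def totalVariation (μ : A → ℝ) : ℝ≥0∞ :=
  ⨆ (F : Finset A) (_ : (F : Set A).PairwiseDisjoint id), ∑ x ∈ F, ENNReal.ofReal |μ x|

/-- The Nikodym property: every pointwise bounded sequence of measures is bounded in norm. -/
def HasNikodym (A : Type*) [BooleanAlgebra A] : Prop :=
  ∀ μ : ℕ → A → ℝ, (∀ n, IsMeasure (μ n)) → (∀ x : A, ∃ C : ℝ, ∀ n, |μ n x| ≤ C) →
    ⨆ n, totalVariation (μ n) < ⊤

end Pool.Agent.P.MP_5a7d1f_lc
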