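import Mathlib

/-!
# Martin's axiom and minimally generated Boolean algebras
-/

namespace Pool.Agent.P.MP_5a7d1f_lc

universe v

/-- Martin's axiom: for every nonempty ccc partial order and every family of fewer than
continuum many dense sets there is a filter meeting all of them. -/
def MartinsAxiom : Prop :=
  ∀ (P : Type) [PartialOrder P] [Nonempty P],
    (∀ S : Set P, S.Pairwise (fun p q => ¬ ∃ r, r ≤ p ∧ r ≤ q) → S.Countable) →
    ∀ 𝒟 : Set (Set P), Cardinal.mk 𝒟 < Cardinal.continuum →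
      (∀ D ∈ 𝒟, ∀ p, ∃ q ∈ D, q ≤ p) →
      ∃ G : Set P, (∀ p ∈ G, ∀ q, p ≤ q → q ∈ G) ∧
        (∀ p ∈ G, ∀ q ∈ G, ∃ r ∈ G, r ≤ p ∧ r ≤ q) ∧ ∀ D ∈ 𝒟, (G ∩ D).Nonempty

/-- `A` is minimally generated (Koppelberg): it is the last member of a continuous chain of
subalgebras that starts with `{⊥, ⊤}` and in which each successor step is trivial or a minimal
extension (no subalgebra lies strictly between `C o` and `C (o + 1)`).  Dually, the Stone space
is the limit of an inverse system of simple extensions. -/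
def IsMinimallyGenerated (A : Type*) [BooleanAlgebra A] : Prop :=
  ∃ (l : Ordinal.{v}) (C : Ordinal.{v} → BooleanSubalgebra A),
    Monotone C ∧ C 0 = ⊥ ∧ C l = ⊤ ∧
    (∀ o, C o = C (o + 1) ∨ C o ⋖ C (o + 1)) ∧
    (∀ o, Order.IsSuccLimit o → ∀ x ∈ C o, ∃ i < o, x ∈ C i)

end Pool.Agent.P.MP_5a7d1f_lc
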