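import Pool.Agent.P.MP_5a7d1f_lc.MDefs

/-!
# Martin's axiom gives pseudo-intersections
-/

namespace Pool.Agent.P.MP_5a7d1f_lc

open Set Cardinal

/-- conditions of the forcing adding a pseudo-intersection -/
structure Cond (𝓕 : Set (Set ℕ)) where
  s : Finset ℕ
  F : Finset 𝓕

instance (𝓕 : Set (Set ℕ)) : PartialOrder (Cond 𝓕) where
  le p q := q.s ⊆ p.s ∧ q.F ⊆ p.F ∧ ∀ n ∈ p.s, n ∉ q.s → ∀ a ∈ q.F, n ∈ (a : Set ℕ)
  le_refl p := ⟨Finset.Subset.refl _, Finset.Subset.refl _, fun n h h' => absurd h h'⟩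
  le_trans p q r h1 h2 := ⟨h2.1.trans h1.1, h2.2.1.trans h1.2.1, fun n hn hn' a ha => by
    by_cases h : n ∈ q.s
    · exact h2.2.2 n h hn' a ha
    · exact h1.2.2 n hn h a (h2.2.1 ha)⟩
  le_antisymm p q h1 h2 := by
    obtain ⟨s, F⟩ := p
    obtain ⟨t, G⟩ := q
    have e1 : s = t := Finset.Subset.antisymm h2.1 h1.1
    have e2 : F = G := Finset.Subset.antisymm h2.2.1 h1.2.1
    rw [e1, e2]

lemma Cond.le_def {𝓕 : Set (Set ℕ)} {p q : Cond 𝓕} : p ≤ q ↔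
    q.s ⊆ p.s ∧ q.F ⊆ p.F ∧ ∀ n ∈ p.s, n ∉ q.s → ∀ a ∈ q.F, n ∈ (a : Set ℕ) := Iff.rfl

theorem MartinsAxiom.pseudo (MA : MartinsAxiom) (𝓕 : Set (Set ℕ)) (hc : #𝓕 < continuum)
    (h : ∀ F : Finset 𝓕, {n | ∀ a ∈ F, n ∈ (a : Set ℕ)}.Infinite) :
    ∃ M : Set ℕ, M.Infinite ∧ ∀ a ∈ 𝓕, (M \ a).Finite := by
  classical
  haveI : Nonempty (Cond 𝓕) := ⟨⟨∅, ∅⟩⟩
  let D : 𝓕 → Set (Cond 𝓕) := fun a => {p | a ∈ p.F}
  let E : ℕ → Set (Cond 𝓕) := fun n => {p | ∃ m ∈ p.s, n ≤ m}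
  obtain ⟨G, -, hG, hD⟩ := MA (Cond 𝓕) (fun S hS => by
      refine Set.countable_of_injective_of_countable_image (f := Cond.s) (fun p hp q hq hpq => ?_)
        (Set.to_countable _)
      by_contra hne
      refine hS hp hq hne ⟨⟨p.s, p.F ∪ q.F⟩, Cond.le_def.2 ⟨Finset.Subset.refl _,
        Finset.subset_union_left, fun n h h' => absurd h h'⟩, Cond.le_def.2
        ⟨hpq ▸ Finset.Subset.refl _, Finset.subset_union_right, fun n h h' => ?_⟩⟩
      exact absurd (hpq ▸ h) h') (range D ∪ range E) (by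
      refine (mk_union_le _ _).trans_lt (add_lt_of_lt aleph0_le_continuum
        (mk_range_le.trans_lt hc) (mk_range_le.trans_lt ?_))
      simpa using aleph0_lt_continuum) (by
      rintro _ (⟨a, rfl⟩ | ⟨n, rfl⟩) p
      · exact ⟨⟨p.s, insert a p.F⟩, Finset.mem_insert_self _ _, Cond.le_def.2
          ⟨Finset.Subset.refl _, Finset.subset_insert _ _, fun n h h' => absurd h h'⟩⟩
      · obtain ⟨m, hm, hnm⟩ := (h p.F).exists_gt n
        refine ⟨⟨insert m p.s, p.F⟩, ⟨m, Finset.mem_insert_self _ _, hnm.le⟩, Cond.le_def.2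
          ⟨Finset.subset_insert _ _, Finset.Subset.refl _, fun k hk hk' => ?_⟩⟩
        rcases Finset.mem_insert.1 hk with rfl | hk
        exacts [hm, absurd hk hk'])
  refine ⟨{m | ∃ p ∈ G, m ∈ p.s}, Set.infinite_of_forall_exists_gt fun n => ?_, fun a ha => ?_⟩
  · obtain ⟨p, hp, m, hm, hnm⟩ := hD _ (Or.inr ⟨n + 1, rfl⟩)
    exact ⟨m, ⟨p, hp, hm⟩, hnm⟩
  · obtain ⟨p, hp, hpa⟩ := hD _ (Or.inl ⟨⟨a, ha⟩, rfl⟩)
    refine p.s.finite_toSet.subset ?_
    rintro m ⟨⟨q, hq, hm⟩, hma⟩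
    obtain ⟨r, -, h1, h2⟩ := hG p hp q hq
    by_contra hm'
    exact hma (h1.2.2 m (h2.1 hm) hm' _ hpa)

lemma chain_sfip (𝓕 : Set (Set ℕ)) (h1 : ∀ a ∈ 𝓕, a.Infinite)
    (h2 : ∀ a ∈ 𝓕, ∀ b ∈ 𝓕, (a \ b).Finite ∨ (b \ a).Finite) (F : Finset 𝓕) :
    {n | ∀ a ∈ F, n ∈ (a : Set ℕ)}.Infinite := by
  classical
  have key : F = ∅ ∨ ∃ b ∈ 𝓕, (b \ {n | ∀ a ∈ F, n ∈ (a : Set ℕ)}).Finite := by
    induction F using Finset.induction_on with
    | empty => exact Or.inl rfl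
    | insert c F _ ih =>
      right
      rcases ih with rfl | ⟨b, hb, h⟩
      · exact ⟨c, c.2, Set.finite_empty.subset fun n hn => hn.2 (by simpa using hn.1)⟩
      · rcases h2 b hb c c.2 with h3 | h3
        · refine ⟨b, hb, (h.union h3).subset fun n hn => ?_⟩
          by_contra h4
          simp only [mem_union, mem_diff, not_or, not_and, not_not] at h4
          refine hn.2 fun a ha => ?_
          rcases Finset.mem_insert.1 ha with rfl | ha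
          exacts [h4.2 hn.1, h4.1 hn.1 a ha]
        · refine ⟨c, c.2, (h.union h3).subset fun n hn => ?_⟩
          by_contra h4
          simp only [mem_union, mem_diff, not_or, not_and, not_not] at h4
          refine hn.2 fun a ha => ?_
          rcases Finset.mem_insert.1 ha with rfl | ha
          exacts [hn.1, h4.1 (h4.2 hn.1) a ha]
  rcases key with rfl | ⟨b, hb, h⟩
  · simpa using Set.infinite_univ
  · intro hf
    refine h1 b hb ((h.union hf).subset fun n hn => ?_)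
    by_cases h3 : n ∈ {n | ∀ a ∈ F, n ∈ (a : Set ℕ)}
    exacts [Or.inr h3, Or.inl ⟨hn, h3⟩]

theorem MartinsAxiom.chain (MA : MartinsAxiom) {ι : Type} (hι : #ι < continuum) (g : ι → Set ℕ)
    (S : Set ι) (h1 : ∀ i ∈ S, (g i).Infinite)
    (h2 : ∀ i ∈ S, ∀ j ∈ S, (g i \ g j).Finite ∨ (g j \ g i).Finite) :
    ∃ M : Set ℕ, M.Infinite ∧ ∀ i ∈ S, (M \ g i).Finite := by
  obtain ⟨M, hM, h⟩ := MA.pseudo (g '' S) (mk_image_le.trans_lt ((mk_set_le S).trans_lt hι))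
    (chain_sfip _ (by rintro _ ⟨i, hi, rfl⟩; exact h1 i hi)
      (by rintro _ ⟨i, hi, rfl⟩ _ ⟨j, hj, rfl⟩; exact h2 i hi j hj))
  exact ⟨M, hM, fun i hi => h _ ⟨i, hi, rfl⟩⟩

theorem MartinsAxiom.tower (MA : MartinsAxiom) {ι : Type} (hι : #ι < continuum)
    (D : ι → Set (Set ℕ)) (hD : ∀ i (N : Set ℕ), N.Infinite → ∃ N' ∈ D i, N' ⊆ N ∧ N'.Infinite) :
    ∃ M : Set ℕ, M.Infinite ∧ ∀ i, ∃ N ∈ D i, (M \ N).Finite := by
  classical
  obtain ⟨_, _⟩ := exists_wellOrder ι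
  let Φ : (i : ι) → ((j : ι) → j < i → Set ℕ) → Set ℕ := fun i prev =>
    if h : ∃ N' ∈ D i, N'.Infinite ∧ ∀ j (hj : j < i), (N' \ prev j hj).Finite then h.choose
    else univ
  let g : ι → Set ℕ := (wellFounded_lt (α := ι)).fix Φ
  have hg : ∀ i, g i = Φ i (fun j _ => g j) := fun i => WellFounded.fix_eq _ _ i
  have key : ∀ i, g i ∈ D i ∧ (g i).Infinite ∧ ∀ j < i, (g i \ g j).Finite := by
    intro i
    induction i using WellFoundedLT.induction with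
    | ind i ih =>
    have h : ∃ N' ∈ D i, N'.Infinite ∧ ∀ j (_ : j < i), (N' \ g j).Finite := by
      obtain ⟨M, hM, h⟩ := MA.chain hι g (Iio i) (fun j hj => (ih j hj).2.1) (fun j hj k hk => by
        rcases lt_trichotomy j k with h | rfl | h
        · exact Or.inr ((ih k hk).2.2 j h)
        · simp
        · exact Or.inl ((ih j hj).2.2 k h))
      obtain ⟨N', h1, h2, h3⟩ := hD i M hM
      exact ⟨N', h1, h3, fun j hj => (h j hj).subset (diff_subset_diff_left h2)⟩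
    have : g i = h.choose := by rw [hg]; exact dif_pos h
    rw [this]; exact h.choose_spec
  obtain ⟨M, hM, h⟩ := MA.chain hι g univ (fun j _ => (key j).2.1) (fun j _ k _ => by
    rcases lt_trichotomy j k with h | rfl | h
    · exact Or.inr ((key k).2.2 j h)
    · simp
    · exact Or.inl ((key j).2.2 k h))
  exact ⟨M, hM, fun i => ⟨g i, (key i).1, h i trivial⟩⟩

/-- countable pseudo-intersection inside a free ultrafilter -/
theorem MartinsAxiom.ultra (MA : MartinsAxiom) {J : Type} [Countable J] (𝒰 : Ultrafilter ℕ)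
    (h𝒰 : (𝒰 : Filter ℕ) ≤ Filter.cofinite) (g : J → Set ℕ) (hg : ∀ j, g j ∈ 𝒰) :
    ∃ M : Set ℕ, M.Infinite ∧ ∀ j, (M \ g j).Finite := by
  obtain ⟨M, hM, h⟩ := MA.pseudo (range g)
    (mk_range_le.trans_lt (mk_le_aleph0.trans_lt aleph0_lt_continuum)) (fun F hF => by
      have h1 : {n | ∀ a ∈ F, n ∈ (a : Set ℕ)} ∈ 𝒰 := by
        have := (Filter.biInter_finset_mem (f := (𝒰 : Filter ℕ)) F
          (s := fun a : range g => (a : Set ℕ))).2 (by
          rintro ⟨_, j, rfl⟩ _; exact hg j)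
        exact Filter.mem_of_superset this fun n hn => by simpa using hn
      exact (Ultrafilter.compl_notMem_iff.2 h1) (h𝒰 hF.compl_mem_cofinite))
  exact ⟨M, hM, fun j => h _ ⟨j, rfl⟩⟩

lemma exists_ultra {M : Set ℕ} (hM : M.Infinite) :
    ∃ 𝒰 : Ultrafilter ℕ, (𝒰 : Filter ℕ) ≤ Filter.cofinite ∧ M ∈ 𝒰 := by
  haveI : (Filter.cofinite ⊓ Filter.principal M).NeBot :=
    Filter.frequently_mem_iff_neBot.1 (Filter.frequently_cofinite_mem_iff_infinite.2 hM)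
  refine ⟨Ultrafilter.of (Filter.cofinite ⊓ Filter.principal M),
    (Ultrafilter.of_le _).trans inf_le_left, ?_⟩
  exact (Ultrafilter.of_le _) (Filter.mem_inf_of_right (Filter.mem_principal_self M))

lemma mem_of_diff_finite {𝒰 : Ultrafilter ℕ} (h𝒰 : (𝒰 : Filter ℕ) ≤ Filter.cofinite)
    {M N : Set ℕ} (hM : M ∈ 𝒰) (h : (M \ N).Finite) : N ∈ 𝒰 := by
  refine Filter.mem_of_superset (Filter.inter_mem hM (h𝒰 h.compl_mem_cofinite)) ?_
  rintro n ⟨h1, h2⟩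
  by_contra h3
  exact h2 ⟨h1, h3⟩

lemma infinite_of_mem {𝒰 : Ultrafilter ℕ} (h𝒰 : (𝒰 : Filter ℕ) ≤ Filter.cofinite)
    {M : Set ℕ} (hM : M ∈ 𝒰) : M.Infinite := fun h =>
  (Ultrafilter.compl_notMem_iff.2 hM) (h𝒰 h.compl_mem_cofinite)

end Pool.Agent.P.MP_5a7d1f_lc
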