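import Pool.Agent.P.MP_5a7d1f_lc.Prod
import Pool.Agent.P.MP_5a7d1f_lc.Tower

/-!
# The plank argument
-/

namespace Pool.Agent.P.MP_5a7d1f_lc

open Set Filter BooleanSubalgebra Cardinal

universe v

variable {A : Type*} [BooleanAlgebra A]

lemma ulim_congr {J : Type*} (𝒰 : Ultrafilter J) {u u' : J → Pt A} {x : A}
    (h : {j | u j x = u' j x} ∈ 𝒰) : ulim 𝒰 u x = ulim 𝒰 u' x :=
  ulim_eq _ _ _ _ (mem_of_superset (inter_mem h (ulim_mem 𝒰 u' x)) fun _ hj => hj.1.trans hj.2)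

/-- Cantor scheme -/
noncomputable def scheme (g : A → A) : List Bool → A
  | [] => ⊤
  | b :: s => scheme g s ⊓ (if b then g (scheme g s) else (g (scheme g s))ᶜ)

lemma scheme_uniq (g : A → A) (u : Pt A) : ∀ s t : List Bool, s.length = t.length →
    u (scheme g s) = true → u (scheme g t) = true → s = t
  | [], [], _, _, _ => rfl
  | [], _ :: _, h, _, _ => by simp at h
  | _ :: _, [], h, _, _ => by simp at h
  | b :: s, c :: t, h, h1, h2 => by
    simp only [scheme, pt_inf, Bool.and_eq_true] at h1 h2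
    have := scheme_uniq g u s t (by simpa using h) h1.1 h2.1
    subst this
    have h3 := h1.2
    have h4 := h2.2
    cases b <;> cases c <;> simp_all

lemma exists_scheme (MA : MartinsAxiom) (hP : PairSep A) (ρ : ℕ → Pt A)
    (hρ : Function.Injective ρ) :
    ∃ (f : List Bool → A) (𝒱 : (ℕ → Bool) → Ultrafilter ℕ),
      ∀ σ s, ulim (𝒱 σ) ρ (f s) = true ↔ s = bits σ s.length := by
  have h1 : ∀ x : A, ∃ y : A, {k | ρ k x = true}.Infinite →
      {k | ρ k (x ⊓ y) = true}.Infinite ∧ {k | ρ k (x ⊓ yᶜ) = true}.Infinite := by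
    intro x
    by_cases hx : {k | ρ k x = true}.Infinite
    · obtain ⟨y, h1, h2⟩ := hP.split hx ρ hρ
      refine ⟨y, fun _ => ⟨h1.mono fun k hk => ?_, h2.mono fun k hk => ?_⟩⟩
      · have := hk.1
        simp_all
      · have := hk.1
        have := hk.2
        simp_all
    · exact ⟨⊥, fun h => absurd h hx⟩
  choose g hg using h1
  have h2 : ∀ s, {k | ρ k (scheme g s) = true}.Infinite := by
    intro s
    induction s with
    | nil => simpa [scheme, pt_top] using Set.infinite_univ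
    | cons b s ih =>
      cases b
      exacts [(hg _ ih).2, (hg _ ih).1]
  have h3 : ∀ σ : ℕ → Bool, ∃ 𝒱 : Ultrafilter ℕ, ∀ n,
      {k | ρ k (scheme g (bits σ n)) = true} ∈ 𝒱 := by
    intro σ
    have hanti : Antitone fun n => {k | ρ k (scheme g (bits σ n)) = true} :=
      antitone_nat_of_succ_le fun n k hk => pt_mono _ inf_le_left hk
    obtain ⟨M, hM, h⟩ := MA.chain (ι := ℕ) (by simpa using aleph0_lt_continuum)
      (fun n => {k | ρ k (scheme g (bits σ n)) = true}) univ (fun n _ => h2 _)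
      (fun i _ j _ => by
        rcases le_total i j with h | h
        · right; rw [sdiff_eq_empty.2 (hanti h)]; exact finite_empty
        · left; rw [sdiff_eq_empty.2 (hanti h)]; exact finite_empty)
    obtain ⟨𝒱, h4, h5⟩ := exists_ultra hM
    exact ⟨𝒱, fun n => mem_of_diff_finite h4 h5 (h n trivial)⟩
  choose 𝒱 h𝒱 using h3
  refine ⟨scheme g, 𝒱, fun σ s => ⟨fun h => ?_, fun h => ?_⟩⟩
  · exact scheme_uniq g _ _ _ (bits_length _ _).symm h ((ulim_true _ _ _).2 (h𝒱 σ _))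
  · rw [h]; exact (ulim_true _ _ _).2 (h𝒱 σ _)

theorem plank (MA : MartinsAxiom) (hP : PairSep A) {C : Ordinal.{v} → BooleanSubalgebra A}
    {l : Ordinal.{v}} (H : Chain C l) {ι : Type} [Preorder ι] (hι : #ι < continuum)
    (hdir : ∀ s : ℕ → ι, ∃ b, ∀ n, s n ≤ b) (d : ℕ → Pt A) (hd : Function.Injective d)
    (z : ℕ → ι → Pt A) (hz : ∀ i γ, z i γ ≠ d i)
    (hconv : ∀ i a, ∃ β, ∀ γ, β ≤ γ → z i γ a = d i a) : False := by
  classical
  let 𝒜 : ι → Set A := fun γ => {a | ∀ i γ', γ ≤ γ' → z i γ' a = d i a}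
  have hA : ∀ a, ∃ γ, a ∈ 𝒜 γ := by
    intro a
    choose β hβ using fun i => hconv i a
    obtain ⟨b, hb⟩ := hdir β
    exact ⟨b, fun i γ' h => hβ i γ' ((hb i).trans h)⟩
  -- step 1
  have h1 : ∃ (γ : ι) (N₀ : Set ℕ), N₀.Infinite ∧ ∀ N ⊆ N₀, N.Infinite → ∃ e ∈ 𝒜 γ,
      {n | n ∈ N ∧ d n e = true}.Infinite ∧ {n | n ∈ N ∧ d n e = false}.Infinite := by
    by_contra hcon
    obtain ⟨M, hM, h⟩ := MA.tower hι (fun γ => {N | ¬ ∃ e ∈ 𝒜 γ,
      {n | n ∈ N ∧ d n e = true}.Infinite ∧ {n | n ∈ N ∧ d n e = false}.Infinite})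
      (fun γ N hN => by
        by_contra h
        refine hcon ⟨γ, N, hN, fun N' h1 h2 => ?_⟩
        by_contra h3
        exact h ⟨N', h3, h1, h2⟩)
    obtain ⟨a, h2, h3⟩ := hP.split hM d hd
    obtain ⟨γ, hγ⟩ := hA a
    obtain ⟨N, hN, hfin⟩ := h γ
    refine hN ⟨a, hγ, (h2.sdiff hfin).mono ?_, (h3.sdiff hfin).mono ?_⟩ <;>
    · rintro n ⟨⟨h4, h5⟩, h6⟩
      exact ⟨by_contra fun h7 => h6 ⟨h4, h7⟩, h5⟩
  obtain ⟨γ, N₀, hN₀, hsplit⟩ := h1
  -- step 2: rows
  let St := {x : ι × Set ℕ // γ ≤ x.1 ∧ x.2.Infinite ∧ x.2 ⊆ N₀}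
  have hstep : ∀ x : St, ∃ (x' : St) (b : A), x.1.1 ≤ x'.1.1 ∧ x'.1.2 ⊆ x.1.2 ∧ b ∈ 𝒜 x'.1.1 ∧
      ∀ i ∈ x'.1.2, z i x.1.1 b = true ∧ d i b = false := by
    rintro ⟨⟨β, N⟩, h1, h2, h3⟩
    obtain ⟨b, hb⟩ := hP.on h2 (fun i => z i β) d (fun i _ => hz i β)
    obtain ⟨β', hβ'⟩ := hA b
    obtain ⟨β'', h4⟩ := hdir fun n => if n = 0 then β else β'
    have h5 : β ≤ β'' := by simpa using h4 0
    have h6 : β' ≤ β'' := by simpa using h4 1
    exact ⟨⟨(β'', _), h1.trans h5, hb, fun n hn => h3 hn.1⟩, b, h5, fun n hn => hn.1,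
      fun i γ' h => hβ' i γ' (h6.trans h), fun i hi => hi.2⟩
  choose F b hF1 hF2 hF3 hF4 using hstep
  let x : ℕ → St := fun n => Nat.rec ⟨(γ, N₀), le_rfl, hN₀, Subset.rfl⟩ (fun _ => F) n
  let β : ℕ → ι := fun n => (x n).1.1
  have hβ : Monotone β := monotone_nat_of_le_succ fun n => hF1 (x n)
  have hNanti : Antitone fun n => (x n).1.2 := antitone_nat_of_succ_le fun n => hF2 (x n)
  obtain ⟨M₁, hM₁, hM₁'⟩ := MA.chain (ι := ℕ) (by simpa using aleph0_lt_continuum)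
    (fun n => (x n).1.2) univ (fun n _ => (x n).2.2.1) (fun i _ j _ => by
      rcases le_total i j with h | h
      · right; rw [sdiff_eq_empty.2 (hNanti h)]; exact finite_empty
      · left; rw [sdiff_eq_empty.2 (hNanti h)]; exact finite_empty)
  obtain ⟨𝒰, h𝒰, h𝒰'⟩ := exists_ultra hM₁
  have hN𝒰 : ∀ n, (x n).1.2 ∈ 𝒰 := fun n => mem_of_diff_finite h𝒰 h𝒰' (hM₁' n trivial)
  let ρ : ℕ → Pt A := fun k => ulim 𝒰 fun i => z i (β k)
  have hρ1 : ∀ k, ρ k (b (x k)) = true := fun k =>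
    ulim_eq _ _ _ _ (mem_of_superset (hN𝒰 (k + 1)) fun i hi => (hF4 (x k) i hi).1)
  have hρ2 : ∀ k l, k < l → ρ l (b (x k)) = false := fun k l hkl =>
    ulim_eq _ _ _ _ (mem_of_superset (hN𝒰 (k + 1)) fun i hi =>
      (hF3 (x k) i (β l) (hβ (Nat.succ_le_of_lt hkl))).trans (hF4 (x k) i hi).2)
  have hρ : Function.Injective ρ := by
    intro k l hkl
    by_contra hne
    rcases lt_or_gt_of_ne hne with h | h
    · have := hρ2 k l h
      rw [← hkl, hρ1] at this; cases this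
    · have := hρ2 l k h
      rw [hkl, hρ1] at this; cases this
  -- step 3: the array
  obtain ⟨f, 𝒱, hf⟩ := exists_scheme MA hP ρ hρ
  obtain ⟨M, hM, hM'⟩ := MA.ultra (J := ℕ × List Bool) 𝒰 h𝒰
    (fun p => N₀ ∩ {i | z i (β p.1) (f p.2) = ρ p.1 (f p.2)})
    (fun p => inter_mem (hN𝒰 0) (ulim_mem 𝒰 (fun i => z i (β p.1)) (f p.2)))
  let I := {𝒲 : Ultrafilter ℕ // (𝒲 : Filter ℕ) ≤ cofinite ∧ M ∈ 𝒲}
  let P : (ℕ → Bool) → I → Pt A := fun σ w => ulim (𝒱 σ) fun k => ulim w.1 fun i => z i (β k)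
  have hPe : ∀ e ∈ 𝒜 γ, ∀ σ (w : I), P σ w e = ulim w.1 d e := fun e he σ w =>
    ulim_eq _ _ _ _ (univ_mem' fun k => ulim_congr _ (univ_mem' fun i => he i _ (x k).2.1))
  have hPf : ∀ s σ (w : I), P σ w (f s) = ulim (𝒱 σ) ρ (f s) := fun s σ w =>
    ulim_congr _ (univ_mem' fun k => ulim_eq _ _ _ _
      (mem_of_superset (mem_of_diff_finite w.2.1 w.2.2 (hM' (k, s))) fun i hi => hi.2))
  have hinf : ∀ e ∈ 𝒜 γ, ∀ e' ∈ 𝒜 γ, e ⊓ e' ∈ 𝒜 γ := fun e he e' he' i γ' h => by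
    rw [pt_inf, pt_inf, he i γ' h, he' i γ' h]
  have hcompl : ∀ e ∈ 𝒜 γ, eᶜ ∈ 𝒜 γ := fun e he i γ' h => by
    rw [pt_compl, pt_compl, he i γ' h]
  have htop : ⊤ ∈ 𝒜 γ := fun i γ' _ => by rw [pt_top, pt_top]
  refine Arr.false (B := closure (𝒜 γ ∪ range f)) (P := P)
    (𝓔 := {E | ∃ e ∈ 𝒜 γ, E = {w : I | ulim w.1 d e = true}}) H ⟨?_, ?_, ?_, ?_, ?_⟩
  · intro σ τ w hne
    obtain ⟨n, hn⟩ := Function.ne_iff.1 hne
    refine ⟨f (bits σ (n + 1)), subset_closure (Or.inr ⟨_, rfl⟩), fun h => ?_⟩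
    rw [hPf, hPf, (hf σ _).2 (by rw [bits_length])] at h
    have := (hf τ _).1 h.symm
    rw [bits_length] at this
    exact hn (bits_inj this n (by omega))
  · intro c hc
    induction hc using closure_bot_sup_induction with
    | mem c hc =>
      rcases hc with hc | ⟨s, rfl⟩
      · exact ⟨0, fun σ τ _ w => by rw [hPe c hc, hPe c hc]⟩
      · refine ⟨s.length, fun σ τ h w => ?_⟩
        rw [hPf, hPf, Bool.eq_iff_iff, hf, hf, bits_congr h]
    | bot => exact ⟨0, fun σ τ _ w => by rw [pt_bot, pt_bot]⟩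
    | sup c _ c' _ h h' =>
      obtain ⟨m, h⟩ := h
      obtain ⟨m', h'⟩ := h'
      exact ⟨m + m', fun σ τ hh w => by
        rw [pt_sup, pt_sup, h σ τ (fun i hi => hh i (by omega)) w,
          h' σ τ (fun i hi => hh i (by omega)) w]⟩
    | compl c _ h =>
      obtain ⟨m, h⟩ := h
      exact ⟨m, fun σ τ hh w => by rw [pt_compl, pt_compl, h σ τ hh w]⟩
  · rintro c hc _ ⟨e₀, he₀, rfl⟩ w hw
    have key : ∃ e ∈ 𝒜 γ, ulim w.1 d e = true ∧ ∀ w' : I, ulim w'.1 d e = true →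
        ∀ σ, P σ w' c = P σ w c := by
      induction hc using closure_bot_sup_induction with
      | mem c hc =>
        rcases hc with hc | ⟨s, rfl⟩
        · cases h : ulim w.1 d c
          · refine ⟨cᶜ, hcompl c hc, by rw [pt_compl, h]; rfl, fun w' hw' σ => ?_⟩
            rw [pt_compl] at hw'
            rw [hPe c hc, hPe c hc, h]
            simpa using hw'
          · exact ⟨c, hc, h, fun w' hw' σ => by rw [hPe c hc, hPe c hc, h, hw']⟩
        · exact ⟨⊤, htop, pt_top _, fun w' _ σ => by rw [hPf, hPf]⟩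
      | bot => exact ⟨⊤, htop, pt_top _, fun w' _ σ => by rw [pt_bot, pt_bot]⟩
      | sup c _ c' _ h h' =>
        obtain ⟨e, he, h1, h2⟩ := h
        obtain ⟨e', he', h1', h2'⟩ := h'
        refine ⟨e ⊓ e', hinf e he e' he', by rw [pt_inf, h1, h1']; rfl, fun w' hw' σ => ?_⟩
        rw [pt_inf, Bool.and_eq_true] at hw'
        rw [pt_sup, pt_sup, h2 w' hw'.1, h2' w' hw'.2]
      | compl c _ h =>
        obtain ⟨e, he, h1, h2⟩ := h
        exact ⟨e, he, h1, fun w' hw' σ => by rw [pt_compl, pt_compl, h2 w' hw']⟩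
    obtain ⟨e, he, h1, h2⟩ := key
    refine ⟨_, ⟨e ⊓ e₀, hinf e he e₀ he₀, rfl⟩, ?_, fun w' hw' => ?_, fun w' hw' => h2 w' ?_⟩
    · show ulim w.1 d (e ⊓ e₀) = true
      rw [pt_inf, h1, hw]; rfl
    · exact pt_mono _ inf_le_right hw'
    · exact pt_mono _ inf_le_left hw'
  · intro E hE hne hsub
    choose e he hEe using hE
    choose w hw using hne
    have hanti : Antitone E := antitone_nat_of_succ_le hsub
    obtain ⟨M', hM'1, hM'2⟩ := MA.pseudo (range fun n => M ∩ N₀ ∩ {i | d i (e n) = true})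
      (mk_range_le.trans_lt (by simpa using aleph0_lt_continuum)) (fun G => by
        choose k hk using fun a : range (fun n => M ∩ N₀ ∩ {i | d i (e n) = true}) => a.2
        refine infinite_of_mem (w (G.sup k)).2.1 ?_
        have := (Filter.biInter_finset_mem (f := ((w (G.sup k)).1 : Filter ℕ)) G
          (s := fun a => a.1)).2 (fun a ha => by
            show a.1 ∈ _
            rw [← hk a]
            refine inter_mem (inter_mem (w _).2.2 (mem_of_superset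
              (mem_of_diff_finite (w _).2.1 (w _).2.2 (hM' (0, []))) fun i hi => hi.1)) ?_
            have h1 : w (G.sup k) ∈ E (k a) := hanti (Finset.le_sup ha) (hw _)
            rw [hEe] at h1
            exact (ulim_true _ _ _).1 h1)
        exact Filter.mem_of_superset this fun n hn => by simpa using hn)
    have hfin : ∀ n, (M' \ (M ∩ N₀ ∩ {i | d i (e n) = true})).Finite := fun n => hM'2 _ ⟨n, rfl⟩
    obtain ⟨c, hc, h1, h2⟩ := hsplit (M' ∩ N₀) inter_subset_right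
      ((hM'1.sdiff (hfin 0)).mono fun n hn =>
        ⟨hn.1, by_contra fun h => hn.2 ⟨hn.1, fun h' => h h'.1.2⟩⟩)
    obtain ⟨W, hW1, hW2⟩ := exists_ultra h1
    obtain ⟨W', hW1', hW2'⟩ := exists_ultra h2
    have hm : ∀ n, M ∩ N₀ ∩ {i | d i (e n) = true} ∈ W := fun n =>
      mem_of_diff_finite hW1 (mem_of_superset hW2 fun i hi => hi.1.1) (hfin n)
    have hm' : ∀ n, M ∩ N₀ ∩ {i | d i (e n) = true} ∈ W' := fun n =>
      mem_of_diff_finite hW1' (mem_of_superset hW2' fun i hi => hi.1.1) (hfin n)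
    refine ⟨⟨W, hW1, mem_of_superset (hm 0) fun i hi => hi.1.1⟩,
      ⟨W', hW1', mem_of_superset (hm' 0) fun i hi => hi.1.1⟩, fun n => ⟨?_, ?_⟩, c,
      subset_closure (Or.inl hc), fun σ => ?_⟩
    · rw [hEe]; exact (ulim_true _ _ _).2 (mem_of_superset (hm n) fun i hi => hi.2)
    · rw [hEe]; exact (ulim_true _ _ _).2 (mem_of_superset (hm' n) fun i hi => hi.2)
    · rw [hPe c hc, hPe c hc, ulim_eq W d c true (mem_of_superset hW2 fun i hi => hi.2),
        ulim_eq W' d c false (mem_of_superset hW2' fun i hi => hi.2)]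
      simp
  · obtain ⟨W, hW1, hW2⟩ := exists_ultra hM
    exact ⟨_, ⟨⊤, htop, rfl⟩, ⟨W, hW1, hW2⟩, pt_top _⟩

end Pool.Agent.P.MP_5a7d1f_lc
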