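import Pool.Agent.P.MP_5a7d1f_lc.Defs

/-!
# Points of the Stone space and the pair separation property
-/

namespace Pool.Agent.P.MP_5a7d1f_lc

open Set Filter
open scoped ENNReal symmDiff

variable {A : Type*} [BooleanAlgebra A]

/-- points of the Stone space -/
abbrev Pt (A : Type*) [BooleanAlgebra A] := BoundedLatticeHom A Bool

lemma pt_compl (u : Pt A) (x : A) : u xᶜ = !(u x) := by
  have h1 : u (x ⊓ xᶜ) = ⊥ := by rw [inf_compl_eq_bot, BotHomClass.map_bot]
  have h2 : u (x ⊔ xᶜ) = ⊤ := by rw [sup_compl_eq_top, TopHomClass.map_top]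
  rw [InfHomClass.map_inf] at h1
  rw [SupHomClass.map_sup] at h2
  revert h1 h2
  cases u x <;> cases u xᶜ <;> simp

lemma pt_inf (u : Pt A) (x y : A) : u (x ⊓ y) = (u x && u y) := by
  rw [InfHomClass.map_inf]; cases u x <;> cases u y <;> rfl

lemma pt_sup (u : Pt A) (x y : A) : u (x ⊔ y) = (u x || u y) := by
  rw [SupHomClass.map_sup]; cases u x <;> cases u y <;> rfl

lemma pt_top (u : Pt A) : u ⊤ = true := TopHomClass.map_top u

lemma pt_bot (u : Pt A) : u ⊥ = false := BotHomClass.map_bot u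

lemma pt_symmDiff (u : Pt A) (x y : A) : u (x ∆ y) = (u x != u y) := by
  rw [symmDiff_def, _root_.sdiff_eq, _root_.sdiff_eq, pt_sup, pt_inf, pt_inf, pt_compl, pt_compl]
  cases u x <;> cases u y <;> rfl

lemma pt_mono (u : Pt A) {x y : A} (h : x ≤ y) (hx : u x = true) : u y = true := by
  have : u x ≤ u y := OrderHomClass.mono u h
  rw [hx] at this
  exact top_le_iff.mp this

/-- build a point from a predicate -/
noncomputable def mkPt (p : A → Prop) (htop : p ⊤) (hbot : ¬ p ⊥)
    (hinf : ∀ x y, p (x ⊓ y) ↔ p x ∧ p y) (hsup : ∀ x y, p (x ⊔ y) ↔ p x ∨ p y) : Pt A := by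
  classical
  exact
  { toFun := fun x => decide (p x)
    map_sup' := fun x y => by
      by_cases hx : p x <;> by_cases hy : p y <;> simp [hsup, hx, hy]
    map_inf' := fun x y => by
      by_cases hx : p x <;> by_cases hy : p y <;> simp [hinf, hx, hy]
    map_top' := by simp [htop]
    map_bot' := by simp [hbot] }

lemma mkPt_true (p : A → Prop) (htop hbot hinf hsup) (x : A) :
    mkPt p htop hbot hinf hsup x = true ↔ p x := by
  classical
  show decide (p x) = true ↔ p x
  simp

/-- limit of a family of points along an ultrafilter -/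
noncomputable def ulim {J : Type*} (𝒰 : Ultrafilter J) (u : J → Pt A) : Pt A :=
  mkPt (fun x => {j | u j x = true} ∈ 𝒰) (by simp only [pt_top, ofPred_true]; exact univ_mem) (by simp)
    (fun x y => by
      have : {j | u j (x ⊓ y) = true} = {j | u j x = true} ∩ {j | u j y = true} := by
        ext j; simp
      rw [this]; exact inter_mem_iff)
    (fun x y => by
      have : {j | u j (x ⊔ y) = true} = {j | u j x = true} ∪ {j | u j y = true} := by
        ext j; simp
      rw [this]; exact Ultrafilter.union_mem_iff)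

lemma ulim_true {J : Type*} (𝒰 : Ultrafilter J) (u : J → Pt A) (x : A) :
    ulim 𝒰 u x = true ↔ {j | u j x = true} ∈ 𝒰 := mkPt_true _ _ _ _ _ _

lemma ulim_eq {J : Type*} (𝒰 : Ultrafilter J) (u : J → Pt A) (x : A) (b : Bool)
    (h : {j | u j x = b} ∈ 𝒰) : ulim 𝒰 u x = b := by
  cases b
  · by_contra hne
    have h1 : ulim 𝒰 u x = true := by simpa using hne
    rw [ulim_true] at h1
    obtain ⟨j, hj1, hj2⟩ := Filter.nonempty_of_mem (inter_mem h h1)
    simp only [mem_ofPred_eq] at hj1 hj2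
    rw [hj1] at hj2; cases hj2
  · exact (ulim_true _ _ _).2 h

lemma ulim_mem {J : Type*} (𝒰 : Ultrafilter J) (u : J → Pt A) (x : A) :
    {j | u j x = ulim 𝒰 u x} ∈ 𝒰 := by
  cases h : ulim 𝒰 u x
  · have : ¬ {j | u j x = true} ∈ 𝒰 := by
      rw [← ulim_true, h]; simp
    have h2 := Ultrafilter.compl_mem_iff_notMem.2 this
    have : {j | u j x = true}ᶜ = {j | u j x = false} := by ext j; simp
    rwa [this] at h2
  · exact (ulim_true _ _ _).1 h

/-- a family with the finite intersection property lies in a point -/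
lemma exists_pt (G : Set A) (h : ∀ F : Finset A, (F : Set A) ⊆ G → F.inf id ≠ ⊥) :
    ∃ u : Pt A, ∀ x ∈ G, u x = true := by
  classical
  let F : Order.PFilter A := Order.IsPFilter.toPFilter (F := {y | ∃ F : Finset A, (F : Set A) ⊆ G ∧ F.inf id ≤ y})
    (Order.IsPFilter.of_def ⟨⊤, ∅, by simp, by simp⟩
      (by
        rintro x ⟨F1, h1, h1'⟩ y ⟨F2, h2, h2'⟩
        refine ⟨x ⊓ y, ⟨F1 ∪ F2, by simp [h1, h2], ?_⟩, inf_le_left, inf_le_right⟩
        rw [Finset.inf_union]; exact inf_le_inf h1' h2')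
      (by
        rintro x y hxy ⟨F1, h1, h1'⟩
        exact ⟨F1, h1, h1'.trans hxy⟩))
  have hF : ∀ y, y ∈ F ↔ ∃ F : Finset A, (F : Set A) ⊆ G ∧ F.inf id ≤ y := fun y => Iff.rfl
  have hdisj : Disjoint (F : Set A) ((Order.Ideal.principal (⊥ : A) : Order.Ideal A) : Set A) := by
    rw [Set.disjoint_left]
    intro y hy hy2
    obtain ⟨F1, h1, h1'⟩ := (hF y).1 hy
    have : y ≤ ⊥ := Order.Ideal.mem_principal.1 hy2
    exact h F1 h1 (le_bot_iff.1 (h1'.trans this))
  obtain ⟨J, hJ, -, hFJ⟩ := DistribLattice.prime_ideal_of_disjoint_filter_ideal hdisj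
  have htop : (⊤ : A) ∉ J := fun ht =>
    Set.disjoint_left.1 hFJ ((hF ⊤).2 ⟨∅, by simp, by simp⟩) ht
  refine ⟨mkPt (fun x => x ∉ J) htop (by simp) (fun x y => ?_) (fun x y => ?_), fun x hx => ?_⟩
  · constructor
    · intro hxy
      exact ⟨fun hx => hxy (J.lower inf_le_left hx), fun hy => hxy (J.lower inf_le_right hy)⟩
    · rintro ⟨hx, hy⟩ hxy
      rcases hJ.mem_or_mem hxy with h | h
      exacts [hx h, hy h]
  · rw [Order.Ideal.sup_mem_iff]; tauto
  · rw [mkPt_true]
    exact fun hJx => Set.disjoint_left.1 hFJ ((hF x).2 ⟨{x}, by simpa using hx, by simp⟩) hJx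

/-- the pair separation property -/
def PairSep (A : Type*) [BooleanAlgebra A] : Prop :=
  ∀ u v : ℕ → Pt A, (∀ n, u n ≠ v n) → ∃ a : A, {n | u n a ≠ v n a}.Infinite

lemma pairSep_of_nikodym (h : HasNikodym A) : PairSep A := by
  classical
  intro u v huv
  by_contra hcon
  push Not at hcon
  let ind : Pt A → A → ℝ := fun w x => if w x = true then 1 else 0
  have hind : ∀ w x y, Disjoint x y → ind w (x ⊔ y) = ind w x + ind w y := by
    intro w x y hxy
    have h0 : w (x ⊓ y) = false := by rw [disjoint_iff.1 hxy, pt_bot]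
    rw [pt_inf] at h0
    simp only [ind, pt_sup]
    revert h0
    cases w x <;> cases w y <;> simp
  have hb : ∀ w x, 0 ≤ ind w x ∧ ind w x ≤ 1 := by
    intro w x; simp only [ind]; split_ifs <;> simp
  let μ : ℕ → A → ℝ := fun n x => n * (ind (u n) x - ind (v n) x)
  have hμ : ∀ n x, |μ n x| ≤ n := by
    intro n x
    simp only [μ, abs_mul, Nat.abs_cast]
    have : |ind (u n) x - ind (v n) x| ≤ 1 := by
      rw [abs_le]; constructor <;> linarith [hb (u n) x, hb (v n) x]
    exact mul_le_of_le_one_right (Nat.cast_nonneg n) this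
  have := h μ (fun n => ⟨fun x y hxy => by simp only [μ, hind _ _ _ hxy]; ring, ⟨n, hμ n⟩⟩)
    (fun x => by
      obtain ⟨N, hN⟩ := (hcon x).bddAbove
      refine ⟨N, fun n => ?_⟩
      by_cases hn : u n x = v n x
      · simp [μ, ind, hn]
      · exact (hμ n x).trans (by exact_mod_cast hN hn))
  obtain ⟨n, hn⟩ := ENNReal.exists_nat_gt this.ne
  have hne : ∃ x, u n x ≠ v n x := by
    by_contra h'; push Not at h'
    exact huv n (DFunLike.ext _ _ h')
  obtain ⟨x, hx⟩ := hne
  have h1 : |μ n x| = n := by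
    simp only [μ, ind, abs_mul, Nat.abs_cast]
    revert hx
    cases u n x <;> cases v n x <;> simp
  have h2 : (n : ℝ≥0∞) ≤ totalVariation (μ n) := by
    refine le_iSup₂_of_le {x} (by simp) ?_
    simp [h1]
  exact absurd (h2.trans (le_iSup (fun n => totalVariation (μ n)) n)) (not_le.2 hn)

lemma PairSep.on (h : PairSep A) {N : Set ℕ} (hN : N.Infinite) (u v : ℕ → Pt A)
    (huv : ∀ n ∈ N, u n ≠ v n) :
    ∃ a : A, {n | n ∈ N ∧ u n a = true ∧ v n a = false}.Infinite := by
  let e := hN.natEmbedding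
  obtain ⟨a, ha⟩ := h (fun k => u (e k)) (fun k => v (e k)) (fun k => huv _ (e k).2)
  have hinj : Function.Injective (fun k => (e k : ℕ)) :=
    Subtype.val_injective.comp e.injective
  have h1 : {n | n ∈ N ∧ u n a ≠ v n a}.Infinite := by
    refine (ha.image hinj.injOn).mono ?_
    rintro _ ⟨k, hk, rfl⟩
    exact ⟨(e k).2, hk⟩
  have h2 : {n | n ∈ N ∧ u n a ≠ v n a} ⊆ {n | n ∈ N ∧ u n a = true ∧ v n a = false} ∪
      {n | n ∈ N ∧ u n aᶜ = true ∧ v n aᶜ = false} := by
    rintro n ⟨hn, hne⟩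
    simp only [mem_union, mem_ofPred_eq, pt_compl, hn, true_and]
    revert hne
    cases u n a <;> cases v n a <;> simp
  rcases Set.infinite_union.1 (h1.mono h2) with h | h
  exacts [⟨a, h⟩, ⟨aᶜ, h⟩]

/-- no convergent injective sequence -/
lemma PairSep.split (h : PairSep A) {N : Set ℕ} (hN : N.Infinite) (d : ℕ → Pt A)
    (hd : Function.Injective d) :
    ∃ a : A, {n | n ∈ N ∧ d n a = true}.Infinite ∧ {n | n ∈ N ∧ d n a = false}.Infinite := by
  let e := hN.natEmbedding
  have hinj : Function.Injective (fun k => (e k : ℕ)) :=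
    Subtype.val_injective.comp e.injective
  obtain ⟨a, ha⟩ := h.on Set.infinite_univ (fun k => d (e k)) (fun k => d (e (k + 1)))
    (fun k _ hk => by have := hinj (hd hk); omega)
  refine ⟨a, (ha.image hinj.injOn).mono ?_,
    (ha.image (f := fun k => (e (k + 1) : ℕ)) (fun k _ l _ hkl => by
      have := hinj hkl; omega)).mono ?_⟩
  · rintro _ ⟨k, hk, rfl⟩; exact ⟨(e k).2, hk.2.1⟩
  · rintro _ ⟨k, hk, rfl⟩; exact ⟨(e (k + 1)).2, hk.2.2⟩

end Pool.Agent.P.MP_5a7d1f_lc
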