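import Pool.Agent.P.MP_5a7d1f_lc.Simple

/-!
# The product of the Cantor set with a space without `G_δ` points is not minimally generated
-/

namespace Pool.Agent.P.MP_5a7d1f_lc

open Set Filter BooleanSubalgebra

universe v

variable {A : Type*} [BooleanAlgebra A]
variable {B : BooleanSubalgebra A} {C : Ordinal.{v} → BooleanSubalgebra A} {l : Ordinal.{v}}

/-- cylinder -/
def Cyl (p : ℕ × (ℕ → Bool)) : Set (ℕ → Bool) := {τ | ∀ i < p.1, τ i = p.2 i}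

/-- a product array of points -/
structure Arr (B : BooleanSubalgebra A) {I : Type*} (P : (ℕ → Bool) → I → Pt A)
    (𝓔 : Set (Set I)) : Prop where
  ha : ∀ σ τ w, σ ≠ τ → ∃ c ∈ B, P σ w c ≠ P τ w c
  hb : ∀ c ∈ B, ∃ m : ℕ, ∀ σ τ, (∀ i < m, σ i = τ i) → ∀ w, P σ w c = P τ w c
  hc : ∀ c ∈ B, ∀ E ∈ 𝓔, ∀ w ∈ E, ∃ E' ∈ 𝓔, w ∈ E' ∧ E' ⊆ E ∧
    ∀ w' ∈ E', ∀ σ, P σ w' c = P σ w c
  hd : ∀ E : ℕ → Set I, (∀ n, E n ∈ 𝓔) → (∀ n, (E n).Nonempty) → (∀ n, E (n + 1) ⊆ E n) →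
    ∃ w w', (∀ n, w ∈ E n ∧ w' ∈ E n) ∧ ∃ c ∈ B, ∀ σ, P σ w c ≠ P σ w' c
  h0 : ∃ E ∈ 𝓔, E.Nonempty

variable {I : Type*} {P : (ℕ → Bool) → I → Pt A} {𝓔 : Set (Set I)}

/-- the data produced at a node -/
def Good (B : BooleanSubalgebra A) (C : Ordinal.{v} → BooleanSubalgebra A)
    (P : (ℕ → Bool) → I → Pt A) (E : Set I) (p : ℕ × (ℕ → Bool))
    (q : Bool → ℕ × (ℕ → Bool)) : Prop :=
  (∀ b, p.1 < (q b).1 ∧ (q b).2 ∈ Cyl p) ∧ ∃ κ : Ordinal.{v},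
    (∀ w ∈ E, ∀ τ ∈ Cyl (q false), ∀ τ' ∈ Cyl (q true), ¬ Ag B C κ (P τ w) (P τ' w)) ∧
    (∀ b, ∀ w ∈ E, ∀ w' ∈ E, ∀ τ ∈ Cyl (q b), Ag B C κ (P τ w) (P τ w'))

lemma Good.mono {E E' : Set I} (h : E' ⊆ E) {p q} (hG : Good B C P E p q) :
    Good B C P E' p q := by
  obtain ⟨h1, κ, h2, h3⟩ := hG
  exact ⟨h1, κ, fun w hw => h2 w (h hw), fun b w hw w' hw' => h3 b w (h hw) w' (h hw')⟩

lemma Chain.not_ag_top (H : Chain C l) {u w : Pt A} {c : A} (hc : c ∈ B) (h : u c ≠ w c) :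
    ¬ Ag B C l u w := fun h' => h (h' c hc (by rw [H.top]; exact mem_top))

lemma Arr.step (H : Chain C l) (R : Arr B P 𝓔) {E : Set I} (hE : E ∈ 𝓔) (hne : E.Nonempty)
    (p : ℕ × (ℕ → Bool)) :
    ∃ E' ∈ 𝓔, E'.Nonempty ∧ E' ⊆ E ∧ ∃ q, Good B C P E' p q := by
  classical
  have hex : ∃ ρ : Ordinal.{v}, ∃ w ∈ E, ∃ σ ∈ Cyl p, ∃ τ ∈ Cyl p,
      ¬ Ag B C (ρ + 1) (P σ w) (P τ w) := by
    obtain ⟨w, hw⟩ := hne
    have hne' : p.2 ≠ Function.update p.2 p.1 (!p.2 p.1) := by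
      intro h
      have := congrFun h p.1
      simp at this
    obtain ⟨c, hc, h⟩ := R.ha _ _ w hne'
    obtain ⟨ρ, -, -, h2⟩ := H.first (H.not_ag_top hc h)
    exact ⟨ρ, w, hw, _, fun _ _ => rfl, _, fun i hi => by simp [Function.update, hi.ne], h2⟩
  obtain ⟨ρ, ⟨w₀, hw₀, σ₀, hσ₀, σ₁, hσ₁, hna⟩, hmin⟩ := wellFounded_lt.has_min _ hex
  have hag : ∀ w ∈ E, ∀ σ ∈ Cyl p, ∀ τ ∈ Cyl p, Ag B C ρ (P σ w) (P τ w) := by
    intro w hw σ hσ τ hτ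
    by_contra h
    obtain ⟨ρ', h1, -, h2⟩ := H.first h
    exact hmin ρ' ⟨w, hw, σ, hσ, τ, hτ, h2⟩ h1
  have : ∃ c ∈ B, c ∈ C (ρ + 1) ∧ P σ₀ w₀ c ≠ P σ₁ w₀ c := by
    by_contra h
    push Not at h
    exact hna h
  obtain ⟨c, hc, hc', hcne⟩ := this
  obtain ⟨E', hE', hw₀', hsub, hunif⟩ := R.hc c hc E hE w₀ hw₀
  obtain ⟨m, hm⟩ := R.hb c hc
  let q : Bool → ℕ × (ℕ → Bool) := fun b => (m + p.1 + 1, if b then σ₁ else σ₀)
  have hq : ∀ b, (q b).2 ∈ Cyl p := by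
    intro b; cases b
    exacts [hσ₀, hσ₁]
  have hq' : ∀ b, Cyl (q b) ⊆ Cyl p := fun b τ hτ i hi =>
    (hτ i (by simp only [q]; omega)).trans (hq b i hi)
  have hval : ∀ b, ∀ w ∈ E', ∀ τ ∈ Cyl (q b), P τ w c = P (q b).2 w₀ c := fun b w hw τ hτ =>
    (hunif w hw τ).trans (hm _ _ (fun i hi => hτ i (by simp only [q]; omega)) _)
  have hna' : ∀ w ∈ E', ¬ Ag B C (ρ + 1) (P σ₀ w) (P σ₁ w) := fun w hw h =>
    hcne ((hunif w hw σ₀).symm.trans ((h c hc hc').trans (hunif w hw σ₁)))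
  refine ⟨E', hE', ⟨w₀, hw₀'⟩, hsub, q, fun b => ⟨by simp only [q]; omega, hq b⟩, ρ + 1,
    fun w hw τ hτ τ' hτ' h => hcne ?_, fun b w hw w' hw' τ hτ => ?_⟩
  · exact (hval false w hw τ hτ).symm.trans ((h c hc hc').trans (hval true w hw τ' hτ'))
  · refine H.two (hag w₀ hw₀ σ₀ hσ₀ σ₁ hσ₁) hc hc' hcne ?_
      ((hval b w hw τ hτ).trans (hval b w' hw' τ hτ).symm)
    have h1 := H.split (hag w (hsub hw) σ₀ hσ₀ σ₁ hσ₁) (hna' w hw)
      (hag w' (hsub hw') σ₀ hσ₀ σ₁ hσ₁) (hna' w' hw')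
    exact (hag w (hsub hw) τ (hq' b hτ) σ₀ hσ₀).trans
      (h1.trans (hag w' (hsub hw') σ₀ hσ₀ τ (hq' b hτ)))

lemma Arr.finstep (H : Chain C l) (R : Arr B P 𝓔) {E : Set I} (hE : E ∈ 𝓔) (hne : E.Nonempty)
    (cyl : List Bool → ℕ × (ℕ → Bool)) (F : Finset (List Bool)) :
    ∃ E' ∈ 𝓔, E'.Nonempty ∧ E' ⊆ E ∧ ∀ s ∈ F, ∃ q, Good B C P E' (cyl s) q := by
  classical
  induction F using Finset.induction_on with
  | empty => exact ⟨E, hE, hne, Subset.rfl, by simp⟩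
  | insert s F _ ih =>
    obtain ⟨E', h1, h2, h3, h4⟩ := ih
    obtain ⟨E'', h5, h6, h7, q, h8⟩ := R.step H h1 h2 (cyl s)
    refine ⟨E'', h5, h6, h7.trans h3, fun t ht => ?_⟩
    rcases Finset.mem_insert.1 ht with rfl | ht
    · exact ⟨q, h8⟩
    · obtain ⟨q', hq'⟩ := h4 t ht
      exact ⟨q', hq'.mono h7⟩

/-- the first `n` bits -/
def bits (σ : ℕ → Bool) : ℕ → List Bool
  | 0 => []
  | n + 1 => σ n :: bits σ n

lemma bits_length (σ : ℕ → Bool) (n : ℕ) : (bits σ n).length = n := by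
  induction n with
  | zero => rfl
  | succ n ih => simp [bits, ih]

lemma bits_congr {σ τ : ℕ → Bool} {n : ℕ} (h : ∀ i < n, σ i = τ i) : bits σ n = bits τ n := by
  induction n with
  | zero => rfl
  | succ n ih => simp [bits, h n (by omega), ih fun i hi => h i (by omega)]

lemma bits_inj {σ τ : ℕ → Bool} {n : ℕ} (h : bits σ n = bits τ n) : ∀ i < n, σ i = τ i := by
  induction n with
  | zero => intro i hi; omega
  | succ n ih =>
    simp only [bits, List.cons.injEq] at h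
    intro i hi
    rcases (Nat.lt_succ_iff.1 hi).lt_or_eq with h1 | h1
    · exact ih h.2 i h1
    · rw [h1]; exact h.1

theorem Arr.false (H : Chain C l) (R : Arr B P 𝓔) : False := by
  classical
  let St := {x : Set I × (List Bool → ℕ × (ℕ → Bool)) // x.1 ∈ 𝓔 ∧ x.1.Nonempty}
  have hstep : ∀ (n : ℕ) (x : St), ∃ x' : St, x'.1.1 ⊆ x.1.1 ∧ ∀ s : List Bool, s.length = n →
      Good B C P x'.1.1 (x.1.2 s) (fun b => x'.1.2 (b :: s)) := by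
    intro n x
    obtain ⟨E', h1, h2, h3, h4⟩ := R.finstep H x.2.1 x.2.2 x.1.2
      (List.finite_length_eq Bool n).toFinset
    choose! q hq using h4
    refine ⟨⟨(E', fun s => match s with
      | [] => (0, fun _ => Bool.false)
      | b :: s => q s b), h1, h2⟩, h3, fun s hs => hq s (by simpa using hs)⟩
  choose f hf1 hf2 using hstep
  obtain ⟨E₀, hE₀, hne₀⟩ := R.h0
  let x : ℕ → St := fun n => Nat.rec ⟨(E₀, fun _ => (0, fun _ => Bool.false)), hE₀, hne₀⟩ f n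
  have hx1 : ∀ n, (x (n + 1)).1.1 ⊆ (x n).1.1 := fun n => hf1 n (x n)
  have hx2 : ∀ n (s : List Bool), s.length = n →
      Good B C P (x (n + 1)).1.1 ((x n).1.2 s) (fun b => (x (n + 1)).1.2 (b :: s)) :=
    fun n => hf2 n (x n)
  let cy : (ℕ → Bool) → ℕ → ℕ × (ℕ → Bool) := fun σ n => (x n).1.2 (bits σ n)
  have hcy : ∀ σ n, (cy σ n).1 < (cy σ (n + 1)).1 ∧ (cy σ (n + 1)).2 ∈ Cyl (cy σ n) :=
    fun σ n => (hx2 n _ (bits_length σ n)).1 (σ n)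
  have hdepth : ∀ σ n, n ≤ (cy σ n).1 := by
    intro σ n
    induction n with
    | zero => omega
    | succ n ih => have := (hcy σ n).1; omega
  have hnest : ∀ σ n k, n ≤ k → (cy σ n).1 ≤ (cy σ k).1 ∧ (cy σ k).2 ∈ Cyl (cy σ n) := by
    intro σ n k hnk
    induction k, hnk using Nat.le_induction with
    | base => exact ⟨le_rfl, fun _ _ => rfl⟩
    | succ k _ ih =>
      exact ⟨ih.1.trans (hcy σ k).1.le,
        fun i hi => ((hcy σ k).2 i (hi.trans_le ih.1)).trans (ih.2 i hi)⟩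
  let y : (ℕ → Bool) → ℕ → Bool := fun σ k => (cy σ (k + 1)).2 k
  have hy : ∀ σ n, y σ ∈ Cyl (cy σ n) := by
    intro σ n i hi
    rcases le_total n (i + 1) with h | h
    · exact (hnest σ n (i + 1) h).2 i hi
    · exact ((hnest σ (i + 1) n h).2 i (by have := hdepth σ (i + 1); omega)).symm
  obtain ⟨w, w', hw, e, he, hsep⟩ := R.hd (fun n => (x n).1.1) (fun n => (x n).2.1)
    (fun n => (x n).2.2) hx1
  have hex : ∃ ρ : Ordinal.{v}, ∃ σ, ¬ Ag B C (ρ + 1) (P (y σ) w) (P (y σ) w') := by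
    obtain ⟨ρ, -, -, h⟩ := H.first (H.not_ag_top he (hsep (y fun _ => Bool.false)))
    exact ⟨ρ, _, h⟩
  obtain ⟨ρ, ⟨σ, hσ⟩, hmin⟩ := wellFounded_lt.has_min _ hex
  have hag : ∀ τ, Ag B C ρ (P (y τ) w) (P (y τ) w') := by
    intro τ
    by_contra h
    obtain ⟨ρ', h1, -, h2⟩ := H.first h
    exact hmin ρ' ⟨τ, h2⟩ h1
  have : ∃ c ∈ B, c ∈ C (ρ + 1) ∧ P (y σ) w c ≠ P (y σ) w' c := by
    by_contra h
    push Not at h
    exact hσ h
  obtain ⟨c, hc, hc', hcne⟩ := this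
  obtain ⟨m, hm⟩ := R.hb c hc
  let σ' := Function.update σ m (!σ m)
  have hbits : bits σ' m = bits σ m := bits_congr fun i hi => by simp [σ', hi.ne]
  have hyy : ∀ i < m, y σ i = y σ' i := by
    intro i hi
    have h1 := hy σ m i (hi.trans_le (hdepth σ m))
    have h2 := hy σ' m i (hi.trans_le (hdepth σ' m))
    simp only [cy, hbits] at h1 h2
    exact h1.trans h2.symm
  have hσ' : ¬ Ag B C (ρ + 1) (P (y σ') w) (P (y σ') w') := fun h =>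
    hcne ((hm _ _ hyy w).trans ((h c hc hc').trans (hm _ _ hyy w').symm))
  have hsplit := H.split (hag σ) hσ (hag σ') hσ'
  obtain ⟨-, κ, h2, h3⟩ := hx2 m _ (bits_length σ m)
  have hyσ : y σ ∈ Cyl ((x (m + 1)).1.2 (σ m :: bits σ m)) := hy σ (m + 1)
  have hyσ' : y σ' ∈ Cyl ((x (m + 1)).1.2 ((!σ m) :: bits σ m)) := by
    have := hy σ' (m + 1)
    simp only [cy, bits, hbits] at this
    simpa [σ'] using this
  have hκ : κ ≤ ρ := by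
    by_contra h
    exact hσ (H.ag_mono (Order.add_one_le_iff.2 (not_le.1 h))
      (h3 (σ m) w (hw (m + 1)).1 w' (hw (m + 1)).2 _ hyσ))
  have h4 := H.ag_mono hκ hsplit
  cases hb : σ m
  · rw [hb] at hyσ hyσ'
    exact h2 w (hw (m + 1)).1 _ hyσ _ hyσ' h4
  · rw [hb] at hyσ hyσ'
    exact h2 w (hw (m + 1)).1 _ hyσ' _ hyσ h4.symm

end Pool.Agent.P.MP_5a7d1f_lc
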