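import Pool.Agent.P.MP_5a7d1f_lc.Points
import Pool.Agent.P.MP_5a7d1f_lc.MDefs

/-!
# Simple extensions and the product lemma
-/

namespace Pool.Agent.P.MP_5a7d1f_lc

open Set Filter BooleanSubalgebra
open scoped symmDiff

universe v

variable {A : Type*} [BooleanAlgebra A]

lemma symmDiff_mem {C : BooleanSubalgebra A} {x y : A} (hx : x ∈ C) (hy : y ∈ C) :
    x ∆ y ∈ C := sup_mem (sdiff_mem hx hy) (sdiff_mem hy hx)

/-- the ideal of a minimal extension is prime -/
lemma cov_prime {C D : BooleanSubalgebra A} (h : C ⋖ D) {y : A} (hy : y ∈ C) :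
    (∀ c ∈ D, c ⊓ y ∈ C) ∨ (∀ c ∈ D, c ⊓ yᶜ ∈ C) := by
  have key : ∀ y ∈ C, (∀ c ∈ D, c ⊓ y ∈ C) ∨ (∀ c ∈ D, c ⊓ y ∈ C → c ∈ C) := by
    intro y hy
    let E : BooleanSubalgebra A :=
      { carrier := {c | c ∈ D ∧ c ⊓ y ∈ C}
        supClosed' := fun c hc c' hc' =>
          ⟨sup_mem hc.1 hc'.1, by rw [inf_sup_right]; exact sup_mem hc.2 hc'.2⟩
        infClosed' := fun c hc c' hc' =>
          ⟨inf_mem hc.1 hc'.1, by rw [inf_inf_distrib_right]; exact inf_mem hc.2 hc'.2⟩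
        compl_mem' := fun {c} hc => ⟨compl_mem hc.1, by
          have : cᶜ ⊓ y = y ⊓ (c ⊓ y)ᶜ := by
            rw [compl_inf, inf_sup_left, inf_compl_eq_bot, sup_bot_eq, inf_comm]
          rw [this]; exact inf_mem hy (compl_mem hc.2)⟩
        bot_mem' := ⟨bot_mem, by simp⟩ }
    have h1 : C ≤ E := fun c hc => ⟨h.le hc, inf_mem hc hy⟩
    have h2 : E ≤ D := fun c hc => hc.1
    rcases h.eq_or_eq h1 h2 with h3 | h3
    · right; intro c hc hcy
      have : c ∈ E := ⟨hc, hcy⟩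
      rwa [h3] at this
    · left; intro c hc
      have : c ∈ E := by rw [h3]; exact hc
      exact this.2
  rcases key y hy with h1 | h1
  · exact Or.inl h1
  · right
    intro c hc
    exact h1 _ (inf_mem hc (compl_mem (h.le hy))) (by simp [inf_assoc])

/-- any two new elements of a minimal extension differ by an old element -/
lemma cov_symmDiff {C D : BooleanSubalgebra A} (h : C ⋖ D) {c x : A} (hc : c ∈ D) (hc' : c ∉ C)
    (hx : x ∈ D) : x ∈ C ∨ x ∆ c ∈ C := by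
  have hinf : ∀ x x', x ∈ D → x' ∈ D → (x ∈ C ∨ x ∆ c ∈ C) → (x' ∈ C ∨ x' ∆ c ∈ C) →
      (x ⊓ x' ∈ C ∨ (x ⊓ x') ∆ c ∈ C) := by
    have mixed : ∀ x x', x' ∈ D → x ∈ C → x' ∆ c ∈ C → (x ⊓ x' ∈ C ∨ (x ⊓ x') ∆ c ∈ C) := by
      intro x x' hx' h1 h2
      rcases cov_prime h h1 with h3 | h3
      · left; rw [inf_comm]; exact h3 _ hx'
      · right
        have e1 : (x ⊓ x') ∆ x' = x' ⊓ xᶜ := by
          rw [symmDiff_of_le inf_le_right, _root_.sdiff_eq, compl_inf, inf_sup_left,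
            inf_compl_eq_bot, sup_bot_eq]
        have e2 : (x ⊓ x') ∆ c = ((x ⊓ x') ∆ x') ∆ (x' ∆ c) := by
          rw [symmDiff_assoc, symmDiff_symmDiff_cancel_left]
        rw [e2, e1]
        exact symmDiff_mem (h3 _ hx') h2
    intro x x' hx hx' h1 h2
    rcases h1 with h1 | h1 <;> rcases h2 with h2 | h2
    · exact Or.inl (inf_mem h1 h2)
    · exact mixed x x' hx' h1 h2
    · rw [inf_comm]; exact mixed x' x hx h2 h1
    · have h3 : x ∆ x' ∈ C := by
        have : x ∆ x' = (x ∆ c) ∆ (x' ∆ c) := by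
          rw [symmDiff_comm x' c, symmDiff_assoc, symmDiff_symmDiff_cancel_left]
        rw [this]; exact symmDiff_mem h1 h2
      rcases cov_prime h h3 with h4 | h4
      · right
        have e1 : (x ⊓ x') ∆ x = x ⊓ (x ∆ x') := by
          rw [symmDiff_of_le inf_le_left, inf_symmDiff_distrib_left, inf_idem,
            symmDiff_of_ge inf_le_left]
        have e2 : (x ⊓ x') ∆ c = ((x ⊓ x') ∆ x) ∆ (x ∆ c) := by
          rw [symmDiff_assoc, symmDiff_symmDiff_cancel_left]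
        rw [e2, e1]
        exact symmDiff_mem (h4 _ hx) h1
      · left
        have e1 : x ⊓ x' = (x ⊓ x') ⊓ (x ∆ x')ᶜ := by
          refine (inf_eq_left.2 ?_).symm
          exact le_compl_iff_disjoint_right.2 (disjoint_symmDiff_inf x x').symm
        rw [e1]; exact h4 _ (inf_mem hx hx')
  have hcompl : ∀ x, (x ∈ C ∨ x ∆ c ∈ C) → (xᶜ ∈ C ∨ xᶜ ∆ c ∈ C) := by
    intro x h1
    rcases h1 with h1 | h1
    · exact Or.inl (compl_mem h1)
    · right
      have : xᶜ ∆ c = (x ∆ c)ᶜ := by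
        rw [← hnot_eq_compl, ← hnot_eq_compl, ← symmDiff_top x, ← symmDiff_top (x ∆ c),
          symmDiff_right_comm]
      rw [this]; exact compl_mem h1
  let E : BooleanSubalgebra A :=
    { carrier := {x | x ∈ D ∧ (x ∈ C ∨ x ∆ c ∈ C)}
      supClosed' := fun x hx x' hx' => ⟨sup_mem hx.1 hx'.1, by
        have := hcompl _ (hinf _ _ (compl_mem hx.1) (compl_mem hx'.1) (hcompl _ hx.2)
          (hcompl _ hx'.2))
        rwa [compl_inf, compl_compl, compl_compl] at this⟩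
      infClosed' := fun x hx x' hx' => ⟨inf_mem hx.1 hx'.1, hinf _ _ hx.1 hx'.1 hx.2 hx'.2⟩
      compl_mem' := fun {x} hx => ⟨compl_mem hx.1, hcompl _ hx.2⟩
      bot_mem' := ⟨bot_mem, Or.inl bot_mem⟩ }
  have h1 : C ≤ E := fun x hx => ⟨h.le hx, Or.inl hx⟩
  have h2 : E ≤ D := fun x hx => hx.1
  rcases h.eq_or_eq h1 h2 with h3 | h3
  · have : c ∈ E := ⟨hc, Or.inr (by simp)⟩
    rw [h3] at this
    exact absurd this hc'
  · have : x ∈ E := by rw [h3]; exact hx
    exact this.2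

/-- a chain of simple extensions -/
structure Chain (C : Ordinal.{v} → BooleanSubalgebra A) (l : Ordinal.{v}) : Prop where
  mono : Monotone C
  zero : C 0 = ⊥
  top : C l = ⊤
  succ : ∀ o, C o = C (o + 1) ∨ C o ⋖ C (o + 1)
  lim : ∀ o, Order.IsSuccLimit o → ∀ x ∈ C o, ∃ i < o, x ∈ C i

/-- agreement on `B ∩ C o` -/
def Ag (B : BooleanSubalgebra A) (C : Ordinal.{v} → BooleanSubalgebra A) (o : Ordinal.{v})
    (u w : Pt A) : Prop := ∀ y ∈ B, y ∈ C o → u y = w y

variable {B : BooleanSubalgebra A} {C : Ordinal.{v} → BooleanSubalgebra A} {l : Ordinal.{v}}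

lemma Ag.symm {o : Ordinal.{v}} {u w : Pt A} (h : Ag B C o u w) : Ag B C o w u :=
  fun y h1 h2 => (h y h1 h2).symm

lemma Ag.trans {o : Ordinal.{v}} {u w z : Pt A} (h : Ag B C o u w) (h' : Ag B C o w z) :
    Ag B C o u z := fun y h1 h2 => (h y h1 h2).trans (h' y h1 h2)

lemma Chain.ag_mono (H : Chain C l) {o o' : Ordinal.{v}} (ho : o ≤ o') {u w : Pt A}
    (h : Ag B C o' u w) : Ag B C o u w := fun y h1 h2 => h y h1 (H.mono ho h2)

lemma Chain.first (H : Chain C l) {o : Ordinal.{v}} {u w : Pt A} (h : ¬ Ag B C o u w) :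
    ∃ ρ < o, Ag B C ρ u w ∧ ¬ Ag B C (ρ + 1) u w := by
  induction o using Ordinal.limitRecOn with
  | zero =>
    refine absurd (fun y _ hy => ?_) h
    rw [H.zero, BooleanSubalgebra.mem_bot] at hy
    rcases hy with rfl | rfl
    · rw [pt_bot, pt_bot]
    · rw [pt_top, pt_top]
  | add_one o ih =>
    by_cases h1 : Ag B C o u w
    · exact ⟨o, lt_add_one o, h1, h⟩
    · obtain ⟨ρ, h2, h3⟩ := ih h1
      exact ⟨ρ, h2.trans (lt_add_one o), h3⟩
  | limit o ho ih =>
    have : ∃ i < o, ¬ Ag B C i u w := by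
      by_contra h1
      push Not at h1
      refine h fun y hy hy' => ?_
      obtain ⟨i, hi, hyi⟩ := H.lim o ho y hy'
      exact h1 i hi y hy hyi
    obtain ⟨i, hi, h1⟩ := this
    obtain ⟨ρ, h2, h3⟩ := ih i hi h1
    exact ⟨ρ, h2.trans hi, h3⟩

lemma Chain.cov (H : Chain C l) {ρ : Ordinal.{v}} {u w : Pt A} (h1 : Ag B C ρ u w)
    (h2 : ¬ Ag B C (ρ + 1) u w) : C ρ ⋖ C (ρ + 1) := by
  rcases H.succ ρ with h | h
  · exact absurd (fun y hy hy' => h1 y hy (h ▸ hy')) h2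
  · exact h

/-- only one point is split at a given stage -/
lemma Chain.split (H : Chain C l) {ρ : Ordinal.{v}} {u w u' w' : Pt A} (h1 : Ag B C ρ u w)
    (h2 : ¬ Ag B C (ρ + 1) u w) (h1' : Ag B C ρ u' w') (h2' : ¬ Ag B C (ρ + 1) u' w') :
    Ag B C ρ u u' := by
  have hcov := H.cov h1 h2
  have key : ∀ {u w : Pt A}, Ag B C ρ u w → ¬ Ag B C (ρ + 1) u w → ∀ y ∈ B,
      y ∈ C ρ → (∀ c ∈ C (ρ + 1), c ⊓ y ∈ C ρ) → u y = false := by
    intro u w h1 h2 y hy hy' hI
    by_contra hne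
    have hu : u y = true := by simpa using hne
    have hw : w y = true := by rw [← h1 y hy hy', hu]
    refine h2 fun c hc hc' => ?_
    have := h1 _ (inf_mem hc hy) (hI c hc')
    simpa [pt_inf, hu, hw] using this
  intro y hy hy'
  rcases cov_prime hcov hy' with h | h
  · rw [key h1 h2 y hy hy' h, key h1' h2' y hy hy' h]
  · have e1 := key h1 h2 _ (compl_mem hy) (compl_mem hy') h
    have e2 := key h1' h2' _ (compl_mem hy) (compl_mem hy') h
    rw [pt_compl] at e1 e2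
    revert e1 e2
    cases u y <;> cases u' y <;> simp

/-- the split point has only two lifts -/
lemma Chain.two (H : Chain C l) {ρ : Ordinal.{v}} {u w u' w' : Pt A} (h1 : Ag B C ρ u w)
    {c : A} (hc : c ∈ B) (hc' : c ∈ C (ρ + 1)) (huw : u c ≠ w c) (h1' : Ag B C ρ u' w')
    (h2' : u' c = w' c) : Ag B C (ρ + 1) u' w' := by
  have hcov := H.cov h1 (fun h => huw (h c hc hc'))
  intro x hx hx'
  rcases cov_symmDiff hcov hc' (fun h => huw (h1 c hc h)) hx' with h | h
  · exact h1' x hx h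
  · have := h1' _ (symmDiff_mem hx hc) h
    rw [pt_symmDiff, pt_symmDiff, h2'] at this
    revert this
    cases u' x <;> cases w' x <;> cases w' c <;> simp

end Pool.Agent.P.MP_5a7d1f_lc
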