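import Mathlib

/-!
# T-algebras (Koszmider)
-/

namespace Pool.Agent.P.MP_5a7d1f_lc

universe v

/-- A transfinite 0-1 sequence of ordinal length `len` (normalised to be `false` from `len` on). -/
structure Node where
  len : Ordinal.{v}
  val : Ordinal.{v} → Bool
  zero : ∀ i, len ≤ i → val i = false

/-- `s` is an initial segment of `t`. -/
def Node.Le (s t : Node.{v}) : Prop := s.len ≤ t.len ∧ ∀ i < s.len, s.val i = t.val i

/-- The sequence `s` followed by the bit `b`. -/
noncomputable def Node.snoc (s : Node.{v}) (b : Bool) : Node.{v} where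
  len := s.len + 1
  val := fun i => if i = s.len then b else s.val i
  zero := fun i hi => by
    have h : s.len < i := Order.add_one_le_iff.1 hi
    simp [h.ne', s.zero i h.le]

variable {A : Type*} [BooleanAlgebra A]

/-- The generators `a r` attached to the initial segments `r` of `s` of successor length. -/
def below (a : Node.{v} → A) (s : Node.{v}) : Set A :=
  {x | ∃ (r : Node.{v}) (b : Bool), (r.snoc b).Le s ∧ x = a (r.snoc b)}

/-- `y` lies in the filter generated by `G`. -/
def InFilter (G : Set A) (y : A) : Prop :=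
  ∃ F : Finset A, (F : Set A) ⊆ G ∧ F.inf id ≤ y

/-- `A` is a `T`-algebra with generators `a t`, `t ∈ T` of successor length. -/
structure IsTAlgebra (T : Set Node.{v}) (a : Node.{v} → A) : Prop where
  /-- `T` is closed under initial segments -/
  initial : ∀ t ∈ T, ∀ s : Node.{v}, s.Le t → s ∈ T
  /-- `s0 ∈ T` if and only if `s1 ∈ T` -/
  sibling : ∀ s : Node.{v}, s.snoc false ∈ T ↔ s.snoc true ∈ T
  /-- the `a t` generate `A` -/
  generate : BooleanSubalgebra.closure
    {x | ∃ (s : Node.{v}) (b : Bool), s.snoc b ∈ T ∧ x = a (s.snoc b)} = ⊤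
  /-- siblings carry complementary generators -/
  compl : ∀ s : Node.{v}, s.snoc false ∈ T → a (s.snoc true) = (a (s.snoc false))ᶜ
  /-- `a t` is minimal for `(B, u)`, where `B` is the subalgebra and `u` the filter of `B`
  generated by the earlier generators: the `y ∈ B` with `a t ⊓ y ∈ B` are those outside `u` -/
  minimal : ∀ (s : Node.{v}) (b : Bool), s.snoc b ∈ T →
    ∀ y ∈ BooleanSubalgebra.closure (below a s),
      (a (s.snoc b) ⊓ y ∈ BooleanSubalgebra.closure (below a s) ↔ ¬ InFilter (below a s) y)

end Pool.Agent.P.MP_5a7d1f_lc
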