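import Pool.Agent.P.MP_5a7d1f_lc.Points
import Pool.Agent.P.MP_5a7d1f_lc.TDefs

/-!
# T-algebras fail the pair separation property
-/

namespace Pool.Agent.P.MP_5a7d1f_lc

open Set Filter

universe v

namespace Node

lemma ext' {s t : Node.{v}} (h1 : s.len = t.len) (h2 : ∀ i < s.len, s.val i = t.val i) : s = t := by
  obtain ⟨l1, v1, z1⟩ := s
  obtain ⟨l2, v2, z2⟩ := t
  simp only at h1 h2
  subst h1
  have : v1 = v2 := by
    funext i
    rcases lt_or_ge i l1 with h | h
    · exact h2 i h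
    · rw [z1 i h, z2 i h]
  subst this; rfl

lemma le_refl (s : Node.{v}) : s.Le s := ⟨le_rfl, fun _ _ => rfl⟩

lemma Le.trans {r s t : Node.{v}} (h1 : r.Le s) (h2 : s.Le t) : r.Le t :=
  ⟨h1.1.trans h2.1, fun i hi => (h1.2 i hi).trans (h2.2 i (hi.trans_le h1.1))⟩

lemma le_of_le_of_le {r s t : Node.{v}} (h1 : r.Le t) (h2 : s.Le t) (h : r.len ≤ s.len) :
    r.Le s := ⟨h, fun i hi => (h1.2 i hi).trans (h2.2 i (hi.trans_le h)).symm⟩

lemma eq_of_le_of_len {r s : Node.{v}} (h : r.Le s) (h2 : s.len ≤ r.len) : r = s :=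
  ext' (le_antisymm h.1 h2) h.2

@[simp] lemma snoc_len (s : Node.{v}) (b : Bool) : (s.snoc b).len = s.len + 1 := rfl

lemma snoc_le_iff {r t : Node.{v}} {b : Bool} :
    (r.snoc b).Le t ↔ r.Le t ∧ r.len < t.len ∧ t.val r.len = b := by
  constructor
  · rintro ⟨h1, h2⟩
    have h3 : r.len < t.len := Order.add_one_le_iff.1 h1
    refine ⟨⟨h3.le, fun i hi => ?_⟩, h3, ?_⟩
    · have := h2 i (hi.trans (lt_add_one _))
      simpa [snoc, hi.ne] using this
    · have := h2 r.len (lt_add_one _)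
      simpa [snoc] using this.symm
  · rintro ⟨⟨h1, h2⟩, h3, h4⟩
    refine ⟨Order.add_one_le_iff.2 h3, fun i hi => ?_⟩
    rcases (Order.lt_add_one_iff.1 hi).lt_or_eq with h | h
    · simp [snoc, h.ne, h2 i h]
    · subst h; simp [snoc, h4]

lemma le_snoc (s : Node.{v}) (b : Bool) : s.Le (s.snoc b) :=
  ⟨(lt_add_one _).le, fun i hi => by simp [snoc, hi.ne]⟩

lemma snoc_val (s : Node.{v}) (b : Bool) : (s.snoc b).val s.len = b := by simp [snoc]

/-- restriction -/
noncomputable def res (s : Node.{v}) (i : Ordinal.{v}) : Node.{v} where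
  len := i
  val := fun j => if j < i then s.val j else false
  zero := fun j hj => by simp [not_lt.2 hj]

lemma res_le (s : Node.{v}) {i : Ordinal.{v}} (h : i ≤ s.len) : (s.res i).Le s :=
  ⟨h, fun j hj => by
    have hj' : j < i := hj
    simp [res, hj']⟩

lemma trichotomy (s t : Node.{v}) :
    s.Le t ∨ t.Le s ∨ ∃ (r : Node.{v}) (b : Bool), (r.snoc b).Le s ∧ (r.snoc (!b)).Le t := by
  by_cases h : ∃ i, i < s.len ∧ i < t.len ∧ s.val i ≠ t.val i
  · right; right
    obtain ⟨i, ⟨hi1, hi2, hi3⟩, hmin⟩ := wellFounded_lt.has_min _ h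
    have hag : ∀ j < i, s.val j = t.val j := by
      intro j hj
      by_contra hne
      exact hmin j ⟨hj.trans hi1, hj.trans hi2, hne⟩ hj
    refine ⟨s.res i, s.val i, snoc_le_iff.2 ⟨res_le s hi1.le, hi1, rfl⟩,
      snoc_le_iff.2 ⟨⟨hi2.le, fun j hj => ?_⟩, hi2, ?_⟩⟩
    · have hj' : j < i := hj
      simp [res, hj', hag j hj']
    · show t.val i = !s.val i
      revert hi3; cases s.val i <;> cases t.val i <;> simp
  · push Not at h
    rcases le_total s.len t.len with h1 | h1
    · left; exact ⟨h1, fun i hi => h i hi (hi.trans_le h1)⟩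
    · right; left; exact ⟨h1, fun i hi => (h i (hi.trans_le h1) hi).symm⟩

end Node

open BooleanSubalgebra Node

variable {A : Type*} [BooleanAlgebra A] {T : Set Node.{v}} {a : Node.{v} → A}

lemma below_mono {s t : Node.{v}} (h : s.Le t) : below a s ⊆ below a t := by
  rintro _ ⟨r, b, hr, rfl⟩; exact ⟨r, b, hr.trans h, rfl⟩

lemma IsTAlgebra.sib (H : IsTAlgebra T a) {s : Node.{v}} {b : Bool} (h : s.snoc b ∈ T) (c : Bool) :
    s.snoc c ∈ T := by
  cases b <;> cases c
  exacts [h, (H.sibling s).1 h, (H.sibling s).2 h, h]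

lemma IsTAlgebra.compl' (H : IsTAlgebra T a) {s : Node.{v}} {b : Bool} (h : s.snoc b ∈ T) :
    a (s.snoc (!b)) = (a (s.snoc b))ᶜ := by
  cases b
  · exact H.compl s h
  · rw [H.compl s (H.sib h false), compl_compl]; rfl

lemma IsTAlgebra.proper (H : IsTAlgebra T a) {s : Node.{v}} {b : Bool} (h : s.snoc b ∈ T) :
    ¬ InFilter (below a s) ⊥ :=
  (H.minimal s b h ⊥ bot_mem).1 (by simp)

/-- a point through a node -/
lemma IsTAlgebra.exists_pt (H : IsTAlgebra T a) {s : Node.{v}} {b : Bool} (h : s.snoc b ∈ T) :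
    ∃ u : Pt A, ∀ x ∈ below a (s.snoc b), u x = true := by
  classical
  refine Pool.Agent.P.MP_5a7d1f_lc.exists_pt _ fun F hF hbot => ?_
  let F' := F.filter (fun x => x ∈ below a s)
  have hF' : (F' : Set A) ⊆ below a s := fun x hx => (Finset.mem_filter.1 hx).2
  have hy : F'.inf id ∈ closure (below a s) := by
    refine Finset.inf_mem (s := (closure (below a s) : Set A)) top_mem
      (fun x hx y hy => inf_mem hx hy) _ _ fun x hx => subset_closure (hF' hx)
  have hle : a (s.snoc b) ⊓ F'.inf id ≤ F.inf id := by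
    refine Finset.le_inf fun x hx => ?_
    by_cases hxs : x ∈ below a s
    · exact inf_le_right.trans (Finset.inf_le (f := id) (Finset.mem_filter.2 ⟨hx, hxs⟩))
    · obtain ⟨r, c, hr, rfl⟩ := hF hx
      have h1 := hr.1
      simp only [snoc_len] at h1
      rcases (Order.add_one_le_iff.1 h1 |> Order.lt_add_one_iff.1).lt_or_eq with h2 | h2
      · exact absurd ⟨r, c, le_of_le_of_le hr (le_snoc s b) (Order.add_one_le_iff.2 h2), rfl⟩ hxs
      · have : r.snoc c = s.snoc b := eq_of_le_of_len hr (by simp [h2])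
        rw [this]; exact inf_le_left
  rw [hbot, le_bot_iff] at hle
  exact (H.minimal s b h _ hy).1 (by rw [hle]; exact bot_mem) ⟨F', hF', le_rfl⟩

/-- off `a r₀` the generators above `r₀` add nothing -/
lemma IsTAlgebra.loc (H : IsTAlgebra T a) {r₀ : Node.{v}} {b₀ : Bool} :
    ∀ (o : Ordinal.{v}) (t : Node.{v}), t.len = o → t ∈ T → (r₀.snoc b₀).Le t →
      ∀ y ∈ closure (below a t), y ⊓ (a (r₀.snoc b₀))ᶜ ∈ closure (below a (r₀.snoc b₀)) := by
  intro o
  induction o using WellFoundedLT.induction with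
  | ind o ih =>
  intro t hto ht hr y hy
  have hc : (a (r₀.snoc b₀))ᶜ ∈ closure (below a (r₀.snoc b₀)) :=
    compl_mem (subset_closure ⟨r₀, b₀, Node.le_refl _, rfl⟩)
  induction hy using closure_bot_sup_induction with
  | mem x hx =>
    obtain ⟨r, b, hrt, rfl⟩ := hx
    rcases le_or_gt r.len r₀.len with h1 | h1
    · refine inf_mem (subset_closure ⟨r, b, le_of_le_of_le hrt hr ?_, rfl⟩) hc
      simpa using h1
    · obtain ⟨h2, h3, -⟩ := snoc_le_iff.1 hrt
      have h4 : (r₀.snoc b₀).Le r := le_of_le_of_le hr h2 (Order.add_one_le_iff.2 h1)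
      have hrb : r.snoc b ∈ T := H.initial t ht _ hrt
      have hmem : a (r₀.snoc b₀) ∈ below a r := ⟨r₀, b₀, h4, rfl⟩
      have h5 := (H.minimal r b hrb _ (compl_mem (subset_closure hmem))).2 (by
        classical
        rintro ⟨F, hF, hF'⟩
        refine H.proper hrb ⟨insert (a (r₀.snoc b₀)) F, ?_, ?_⟩
        · rw [Finset.coe_insert]; exact insert_subset hmem hF
        · rw [Finset.inf_insert]
          exact (inf_le_inf_left _ hF').trans (by simp))
      have := ih r.len (hto ▸ h3) r rfl (H.initial t ht r h2) h4 _ h5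
      simpa [inf_assoc] using this
  | bot => simp
  | sup x _ y _ hx hy => rw [inf_sup_right]; exact sup_mem hx hy
  | compl x _ hx =>
    have : xᶜ ⊓ (a (r₀.snoc b₀))ᶜ = (a (r₀.snoc b₀))ᶜ ⊓ (x ⊓ (a (r₀.snoc b₀))ᶜ)ᶜ := by
      rw [compl_inf, compl_compl, inf_sup_left, compl_inf_eq_bot, sup_bot_eq, inf_comm]
    rw [this]; exact inf_mem hc (compl_mem hx)

/-- eventual agreement of two sequences of points -/
def Agree (u w : ℕ → Pt A) (y : A) : Prop := ∀ᶠ n in atTop, u n y = w n y

lemma agree_closure {u w : ℕ → Pt A} {G : Set A} (h : ∀ x ∈ G, Agree u w x) :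
    ∀ y ∈ closure G, Agree u w y := by
  intro y hy
  induction hy using closure_bot_sup_induction with
  | mem x hx => exact h x hx
  | bot => exact Eventually.of_forall fun n => by rw [pt_bot, pt_bot]
  | sup x _ y _ hx hy =>
    filter_upwards [hx, hy] with n h1 h2
    rw [pt_sup, pt_sup, h1, h2]
  | compl x _ hx =>
    filter_upwards [hx] with n h1
    rw [pt_compl, pt_compl, h1]

/-- sequences that leave `t` at the node `r₀ b₀` and agree below it agree on `a t` -/
lemma IsTAlgebra.agree_of_leave (H : IsTAlgebra T a) {u w : ℕ → Pt A} {r₀ t : Node.{v}}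
    {b₀ : Bool} (ht : t ∈ T) (hr : (r₀.snoc b₀).Le t)
    (hu : ∀ᶠ n in atTop, u n (a (r₀.snoc b₀)) = false ∧ w n (a (r₀.snoc b₀)) = false)
    (hag : ∀ x ∈ below a r₀, Agree u w x) : ∀ y ∈ closure (below a t), Agree u w y := by
  intro y hy
  have h1 := H.loc _ t rfl ht hr y hy
  have h2 : ∀ x ∈ below a (r₀.snoc b₀), Agree u w x := by
    rintro _ ⟨r, c, hrc, rfl⟩
    have h1 := hrc.1
    simp only [snoc_len] at h1
    rcases (Order.add_one_le_iff.1 h1 |> Order.lt_add_one_iff.1).lt_or_eq with h2 | h2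
    · exact hag _ ⟨r, c, le_of_le_of_le hrc (le_snoc _ _) (Order.add_one_le_iff.2 h2), rfl⟩
    · have : r.snoc c = r₀.snoc b₀ := eq_of_le_of_len hrc (by simp [h2])
      rw [this]
      filter_upwards [hu] with n hn
      rw [hn.1, hn.2]
  filter_upwards [agree_closure h2 _ h1, hu] with n hn hn'
  simpa [pt_inf, pt_compl, hn'.1, hn'.2] using hn

/-- two points through `s` agree on every generator not above `s` -/
lemma IsTAlgebra.agree_pt (H : IsTAlgebra T a) {u w : Pt A} {s r : Node.{v}} {b : Bool}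
    (hr : r.snoc b ∈ T) (hu : ∀ x ∈ below a s, u x = true) (hw : ∀ x ∈ below a s, w x = true)
    (hs : ¬ s.Le r) : u (a (r.snoc b)) = w (a (r.snoc b)) := by
  rcases trichotomy (r.snoc b) s with h | h | ⟨r₀, b₀, h1, h2⟩
  · rw [hu _ ⟨r, b, h, rfl⟩, hw _ ⟨r, b, h, rfl⟩]
  · have h1 := h.1
    simp only [snoc_len] at h1
    rcases h1.lt_or_eq with h2 | h2
    · exact absurd (le_of_le_of_le h (le_snoc r b) (Order.lt_add_one_iff.1 h2)) hs
    · have : s = r.snoc b := eq_of_le_of_len h (by simp [h2])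
      rw [hu _ ⟨r, b, this ▸ Node.le_refl _, rfl⟩, hw _ ⟨r, b, this ▸ Node.le_refl _, rfl⟩]
  · have h3 : r₀.snoc b₀ ∈ T := H.initial _ hr _ h1
    have h4 : ∀ z : Pt A, (∀ x ∈ below a s, z x = true) → z (a (r₀.snoc b₀)) = false := by
      intro z hz
      have := hz _ ⟨r₀, !b₀, h2, rfl⟩
      rw [H.compl' h3, pt_compl] at this
      simpa using this
    have := H.agree_of_leave (u := fun _ => u) (w := fun _ => w) hr h1
      (Eventually.of_forall fun _ => ⟨h4 u hu, h4 w hw⟩)
      (fun x hx => Eventually.of_forall fun _ => by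
        have hx' := below_mono ((le_snoc r₀ (!b₀)).trans h2) hx
        rw [hu x hx', hw x hx'])
      _ (subset_closure ⟨r, b, Node.le_refl _, rfl⟩)
    exact this.exists.choose_spec

lemma IsTAlgebra.not_pairSep_of (H : IsTAlgebra T a) {u w : ℕ → Pt A} (hne : ∀ n, u n ≠ w n)
    (h : ∀ (r : Node.{v}) (b : Bool), r.snoc b ∈ T → Agree u w (a (r.snoc b))) : ¬ PairSep A := by
  intro hP
  obtain ⟨y, hy⟩ := hP u w hne
  have h1 : Agree u w y := agree_closure (G := {x | ∃ (s : Node.{v}) (b : Bool),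
      s.snoc b ∈ T ∧ x = a (s.snoc b)}) (by rintro _ ⟨s, b, hs, rfl⟩; exact h s b hs) y
    (by rw [H.generate]; exact mem_top)
  unfold Agree at h1
  rw [← Nat.cofinite_eq_atTop, eventually_cofinite] at h1
  exact hy h1

/-- the antichain case -/
lemma IsTAlgebra.antichain (H : IsTAlgebra T a) (s : ℕ → Node.{v})
    (hs : ∀ n, (s n).snoc false ∈ T) (hanti : ∀ m n, m ≠ n → ¬ (s m).Le (s n)) : ¬ PairSep A := by
  choose u hu using fun n => H.exists_pt (hs n)
  choose w hw using fun n => H.exists_pt (H.sib (hs n) true)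
  refine H.not_pairSep_of (u := u) (w := w) (fun n hn => ?_) fun r b hr => ?_
  · have h1 := hu n _ ⟨s n, false, Node.le_refl _, rfl⟩
    have h2 := hw n _ ⟨s n, true, Node.le_refl _, rfl⟩
    rw [H.compl _ (hs n), pt_compl, ← hn, h1] at h2
    cases h2
  · have hfin : {n | (s n).Le r}.Finite := by
      refine Set.Subsingleton.finite fun m hm n hn => ?_
      by_contra hmn
      rcases le_total (s m).len (s n).len with h | h
      · exact hanti m n hmn (le_of_le_of_le hm hn h)
      · exact hanti n m (Ne.symm hmn) (le_of_le_of_le hn hm h)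
    unfold Agree
    rw [← Nat.cofinite_eq_atTop, eventually_cofinite]
    refine hfin.subset fun n hn => ?_
    by_contra hn'
    exact hn (H.agree_pt hr (fun x hx => hu n x (below_mono (le_snoc _ _) hx))
      (fun x hx => hw n x (below_mono (le_snoc _ _) hx)) hn')

lemma infinite_pt [Infinite A] : Infinite (Pt A) := by
  by_contra h
  rw [not_infinite_iff_finite] at h
  have hinj : Function.Injective (fun (x : A) (u : Pt A) => u x) := by
    intro x y hxy
    by_contra hne
    obtain ⟨u, hu⟩ := Pool.Agent.P.MP_5a7d1f_lc.exists_pt {symmDiff x y} (fun F hF hb => by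
      have : symmDiff x y ≤ F.inf id := Finset.le_inf fun z hz => (hF hz).ge
      rw [hb, le_bot_iff, symmDiff_eq_bot] at this
      exact hne this)
    have h1 := hu _ rfl
    have h2 : u x = u y := congrFun hxy u
    rw [pt_symmDiff, h2] at h1
    simp at h1
  exact not_finite_iff_infinite.2 inferInstance (Finite.of_injective _ hinj)

/-- the sequence `d` runs through `t` -/
def Thru (a : Node.{v} → A) (d : ℕ → Pt A) (t : Node.{v}) : Prop :=
  ∀ x ∈ below a t, ∀ᶠ k in atTop, d k x = true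

/-- the sequence `d` is split at `r` -/
def Top (T : Set Node.{v}) (a : Node.{v} → A) (d : ℕ → Pt A) (r : Node.{v}) : Prop :=
  r.snoc false ∈ T ∧ Thru a d r ∧ ∀ c, ∃ᶠ k in atTop, d k (a (r.snoc c)) = true

lemma IsTAlgebra.exists_top (H : IsTAlgebra T a) (hP : PairSep A) (d : ℕ → Pt A)
    (hd : Function.Injective d) : ∃ r, Top T a d r := by
  by_contra hcon
  refine H.not_pairSep_of (u := d) (w := fun k => d (k + 1))
    (fun n hn => by have := hd hn; omega) (fun r' b' ht => ?_) hP
  have hshift : ∀ {x : A} {c : Bool}, (∀ᶠ k in atTop, d k x = c) →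
      ∀ᶠ k in atTop, d k x = c ∧ d (k + 1) x = c := fun h =>
    h.and ((tendsto_add_atTop_nat 1).eventually h)
  by_cases h : ∃ o, ∃ (r : Node.{v}) (b : Bool), r.len = o ∧ (r.snoc b).Le (r'.snoc b') ∧
      ¬ ∀ᶠ k in atTop, d k (a (r.snoc b)) = true
  · obtain ⟨_, ⟨r, b, rfl, h1, h2⟩, hmin⟩ := wellFounded_lt.has_min _ h
    have hthru : Thru a d r := by
      rintro _ ⟨q, c, hq, rfl⟩
      by_contra h3
      exact hmin q.len ⟨q, c, rfl, hq.trans ((le_snoc r b).trans h1), h3⟩ (snoc_le_iff.1 hq).2.1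
    have hrb : r.snoc b ∈ T := H.initial _ ht _ h1
    have h3 : ∀ᶠ k in atTop, d k (a (r.snoc b)) = false := by
      by_contra h3
      refine hcon ⟨r, H.sib hrb false, hthru, fun c => ?_⟩
      by_cases hc : c = b
      · subst hc
        rw [not_eventually] at h3
        exact h3.mono fun k hk => by simpa using hk
      · have : c = !b := by revert hc; cases b <;> cases c <;> simp
        subst this
        rw [not_eventually] at h2
        exact h2.mono fun k hk => by rw [H.compl' hrb, pt_compl]; simpa using hk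
    refine H.agree_of_leave ht h1 (hshift h3) (fun x hx => ?_) _
      (subset_closure ⟨r', b', Node.le_refl _, rfl⟩)
    exact (hshift (hthru x hx)).mono fun k hk => hk.1.trans hk.2.symm
  · push Not at h
    exact (hshift (h _ r' b' rfl (Node.le_refl _))).mono fun k hk => hk.1.trans hk.2.symm

lemma IsTAlgebra.le_top (H : IsTAlgebra T a) {d : ℕ → Pt A} {r t : Node.{v}} (ht : t ∈ T)
    (h1 : Thru a d t) (h2 : Top T a d r) : t.Le r := by
  have key : ∀ (q : Node.{v}) (c : Bool), q.snoc c ∈ T →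
      (∀ᶠ k in atTop, d k (a (q.snoc c)) = true) →
      ¬ ∃ᶠ k in atTop, d k (a (q.snoc (!c))) = true := by
    intro q c hq h3 h4
    obtain ⟨k, hk1, hk2⟩ := (h4.and_eventually h3).exists
    rw [H.compl' hq, pt_compl, hk2] at hk1
    cases hk1
  rcases trichotomy t r with h | h | ⟨q, c, h3, h4⟩
  · exact h
  · rcases h.1.lt_or_eq with h3 | h3
    · have h4 : (r.snoc (t.val r.len)).Le t := snoc_le_iff.2 ⟨h, h3, rfl⟩
      exact absurd (h2.2.2 _) (key r _ (H.initial t ht _ h4) (h1 _ ⟨r, _, h4, rfl⟩))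
    · rw [eq_of_le_of_len h h3.ge]; exact Node.le_refl _
  · exact absurd (h2.2.1 _ ⟨q, _, h4, rfl⟩).frequently
      (key q c (H.initial t ht _ h3) (h1 _ ⟨q, c, h3, rfl⟩))

lemma IsTAlgebra.step (H : IsTAlgebra T a) (hP : PairSep A) {d : ℕ → Pt A}
    (hd : Function.Injective d) {r : Node.{v}} (hr : Top T a d r) (c : Bool) :
    ∃ (d' : ℕ → Pt A) (r' : Node.{v}), Function.Injective d' ∧ Top T a d' r' ∧
      (r.snoc c).Le r' := by
  obtain ⟨φ, hφ, h⟩ := extraction_of_frequently_atTop (hr.2.2 c)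
  have hinj : Function.Injective (d ∘ φ) := hd.comp hφ.injective
  obtain ⟨r', hr'⟩ := H.exists_top hP _ hinj
  refine ⟨d ∘ φ, r', hinj, hr', H.le_top (H.sib hr.1 c) ?_ hr'⟩
  rintro _ ⟨q, e, hq, rfl⟩
  have h1 := hq.1
  simp only [snoc_len] at h1
  rcases (Order.add_one_le_iff.1 h1 |> Order.lt_add_one_iff.1).lt_or_eq with h2 | h2
  · exact hφ.tendsto_atTop.eventually
      (hr.2.1 _ ⟨q, e, le_of_le_of_le hq (le_snoc _ _) (Order.add_one_le_iff.2 h2), rfl⟩)
  · have : q.snoc e = r.snoc c := eq_of_le_of_len hq (by simp [h2])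
    rw [this]; exact Eventually.of_forall h

theorem IsTAlgebra.not_pairSep [Infinite A] (H : IsTAlgebra T a) : ¬ PairSep A := by
  intro hP
  haveI := infinite_pt (A := A)
  let St := {p : (ℕ → Pt A) × Node.{v} // Function.Injective p.1 ∧ Top T a p.1 p.2}
  have hstep : ∀ (p : St) (c : Bool), ∃ p' : St, (p.1.2.snoc c).Le p'.1.2 := by
    intro p c
    obtain ⟨d', r', h1, h2, h3⟩ := H.step hP p.2.1 p.2.2 c
    exact ⟨⟨(d', r'), h1, h2⟩, h3⟩
  choose f hf using hstep
  let d₀ := Infinite.natEmbedding (Pt A)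
  obtain ⟨r₀, hr₀⟩ := H.exists_top hP d₀ d₀.injective
  let p : ℕ → St := fun n => Nat.rec ⟨(d₀, r₀), d₀.injective, hr₀⟩ (fun _ q => f q false) n
  have hp : ∀ n, ((p n).1.2.snoc false).Le (p (n + 1)).1.2 := fun n => hf (p n) false
  have hmono : ∀ m n, m < n → ((p m).1.2.snoc false).Le (p n).1.2 := by
    intro m n hmn
    induction n with
    | zero => omega
    | succ n ih =>
      rcases (Nat.lt_succ_iff.1 hmn).lt_or_eq with h | h
      · exact (ih h).trans ((le_snoc _ _).trans (hp n))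
      · subst h; exact hp m
  have hcontra : ∀ (r t : Node.{v}), (r.snoc false).Le t → (r.snoc true).Le t → False := by
    intro r t h1 h2
    have := (snoc_le_iff.1 h1).2.2.symm.trans (snoc_le_iff.1 h2).2.2
    cases this
  refine H.antichain (fun n => (f (p n) true).1.2) (fun n => (f (p n) true).2.2.1)
    (fun m n hmn h => ?_) hP
  rcases lt_or_gt_of_ne hmn with h1 | h1
  · exact hcontra _ _ ((hmono m n h1).trans ((le_snoc _ _).trans (hf (p n) true)))
      ((hf (p m) true).trans h)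
  · exact hcontra _ _ ((hmono n m h1).trans ((le_snoc _ _).trans ((hf (p m) true).trans h)))
      (hf (p n) true)

end Pool.Agent.P.MP_5a7d1f_lc
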